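import Pool.Agent.RFS.Defs
import Pool.Agent.H62LR.Small
import Pool.Agent.RFS53.Inst

/-! Closure of the set of good exponents, sections of real-rooted polynomials. -/

open Finset Polynomial

namespace Pool.Agent.RFS

open Pool.Agent.H62LR

/-- Malo's theorem -/
lemma PF_mul {n : ℕ} {a b : ℕ → ℝ} (ha : PF n a) (hb : PF n b) : PF n (fun k => a k * b k) := by
  refine ((ms_choose n le_rfl).apply (ha.comp hb)).congr (fun k hk => ?_)
  have := (choose_pos' hk).ne'
  rw [Real.rpow_one]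
  field_simp

lemma PF_rpow_add {n : ℕ} {a : ℕ → ℝ} (hpos : ∀ k ≤ n, 0 < a k) {s t : ℝ}
    (hs : PF n (fun k => a k ^ s)) (ht : PF n (fun k => a k ^ t)) :
    PF n (fun k => a k ^ (s + t)) :=
  (PF_mul hs ht).congr (fun k hk => (Real.rpow_add (hpos k hk) s t).symm)

/-- the set of exponents generated by `1` and `[7/4, 9/4]` -/
theorem PF_closure {n : ℕ} {a : ℕ → ℝ} (hpos : ∀ k ≤ n, 0 < a k)
    (h1 : PF n (fun k => a k ^ (1 : ℝ)))
    (h2 : ∀ s : ℝ, 7 / 4 ≤ s → s ≤ 9 / 4 → PF n (fun k => a k ^ s)) {s : ℝ}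
    (hs : s = 1 ∨ (7 / 4 ≤ s ∧ s ≤ 9 / 4) ∨ (11 / 4 ≤ s ∧ s ≤ 13 / 4) ∨ 7 / 2 ≤ s) :
    PF n (fun k => a k ^ s) := by
  rcases hs with rfl | hs | hs | hs
  · exact h1
  · exact h2 s hs.1 hs.2
  · have := PF_rpow_add hpos (h2 (s - 1) (by linarith) (by linarith)) h1
    simpa using this
  · have key : ∀ m : ℕ, ∀ s : ℝ, 7 / 2 ≤ s → s ≤ 9 / 2 + m → PF n (fun k => a k ^ s) := by
      intro m
      induction m with
      | zero =>
        intro s hs1 hs2
        have h := h2 (s / 2) (by linarith) (by push_cast at hs2; linarith)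
        have := PF_rpow_add hpos h h
        simpa using this
      | succ m ih =>
        intro s hs1 hs2
        rcases le_or_gt s (9 / 2) with h | h
        · exact ih s hs1 (by have : (0 : ℝ) ≤ m := Nat.cast_nonneg m
                             linarith)
        · have h3 := ih (s - 1) (by linarith) (by push_cast at hs2; linarith)
          have := PF_rpow_add hpos h3 h1
          simpa using this
    obtain ⟨m, hm⟩ := exists_nat_ge (s - 9 / 2)
    exact key m s hs (by linarith)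

/-- coefficients of a real-rooted polynomial as elementary symmetric functions -/
lemma exists_esy {n : ℕ} {a : ℕ → ℝ} (ha : PF n a) :
    ∃ w : Fin n → ℝ, (∀ i, 0 < w i) ∧ ∀ k ≤ n, a k = a 0 * RFS53.esy w univ k := by
  obtain ⟨m, hm, hpos, he⟩ := ha.exists_roots
  obtain ⟨w, hw⟩ : ∃ w : Fin n → ℝ, Multiset.map w (univ : Finset (Fin n)).val = m := by
    induction m using Quotient.inductionOn with
    | _ l =>
      have hl : l.length = n := by simpa using hm
      subst hl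
      refine ⟨l.get, ?_⟩
      rw [Fin.univ_val_map, List.ofFn_get]
      rfl
  refine ⟨w, fun i => hpos _ ?_, fun k hk => ?_⟩
  · rw [← hw]
    exact Multiset.mem_map_of_mem w (Finset.mem_univ i)
  · have h1 := congrArg (fun q => q.coeff k) he
    simp only [coeff_poly, if_pos hk] at h1
    rw [h1, ← hw, Multiset.map_map]
    have h2 : (Multiset.map ((fun ρ => (1 : ℝ[X]) + C ρ * X) ∘ w) (univ : Finset (Fin n)).val).prod
        = ∏ i, (1 + C (w i) * X) := rfl
    rw [h2, Finset.prod_one_add, coeff_C_mul, finsetSum_coeff]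
    congr 1
    unfold RFS53.esy RL1.wt
    rw [Finset.powersetCard_eq_filter, Finset.sum_filter]
    refine Finset.sum_congr rfl (fun A _ => ?_)
    rw [Finset.prod_mul_distrib, Finset.prod_const, ← map_prod, coeff_C_mul, coeff_X_pow]
    by_cases h : A.card = k
    · rw [if_pos h, if_pos h.symm, mul_one]
    · rw [if_neg h, if_neg (fun h' => h h'.symm), mul_zero]

/-- zeros in all the sectors `|arg (-z)| ≤ π / 2^m` are real -/
lemma im_zero_of_arg {z : ℂ} (h : ∀ m : ℕ, 1 ≤ m → |(-z).arg| ≤ Real.pi / 2 ^ m) : z.im = 0 := by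
  have h0 : (-z).arg = 0 := by
    by_contra hne
    have hpos : 0 < |(-z).arg| := abs_pos.2 hne
    obtain ⟨m, hm⟩ := exists_pow_lt_of_lt_one (div_pos hpos Real.pi_pos)
      (show (1 : ℝ) / 2 < 1 by norm_num)
    have h1 := h (m + 1) (by omega)
    have h2 : Real.pi / 2 ^ (m + 1) < |(-z).arg| := by
      have h3 : ((1 : ℝ) / 2) ^ (m + 1) ≤ (1 / 2) ^ m :=
        pow_le_pow_of_le_one (by norm_num) (by norm_num) (by omega)
      have h4 := mul_lt_mul_of_pos_right (h3.trans_lt hm) Real.pi_pos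
      rw [div_mul_cancel₀ _ Real.pi_pos.ne', one_div, inv_pow] at h4
      rw [div_eq_mul_inv, mul_comm]
      exact h4
    linarith
  have h1 := (Complex.arg_eq_zero_iff.1 h0).2
  simpa using h1

/-- sections: the exponents `1` and `[7/4, 9/4]` from the zero sectors -/
lemma section_exponents (sc : ∀ {N : ℕ} {g : ℕ → ℝ}, (∀ k ≤ N, 0 < g k) →
      (∀ z : ℂ, ev N g z = 0 → |(-z).arg| ≤ Real.pi / 8) → PF N (fun k => g k ^ 2))
    {N : ℕ} {h : ℕ → ℝ} (hpos : ∀ k ≤ N, 0 < h k)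
    (hsec : ∀ m : ℕ, 1 ≤ m → ∀ θ : ℝ, |θ| ≤ ((1 : ℝ) / 2) ^ m → ∀ z : ℂ,
      ev N (fun k => h k ^ (1 + θ)) z = 0 → |(-z).arg| ≤ Real.pi / 2 ^ m) {s : ℝ}
    (hs : s = 1 ∨ (7 / 4 ≤ s ∧ s ≤ 9 / 4) ∨ (11 / 4 ≤ s ∧ s ≤ 13 / 4) ∨ 7 / 2 ≤ s) :
    PF N (fun k => h k ^ s) := by
  refine PF_closure hpos ?_ ?_ hs
  · refine ⟨fun k hk => Real.rpow_pos_of_pos (hpos k hk) _, fun z hz h0 => ?_⟩
    have h1 : ∀ m : ℕ, 1 ≤ m → |(-z).arg| ≤ Real.pi / 2 ^ m := by
      intro m hm
      refine hsec m hm 0 (by rw [abs_zero]; positivity) z ?_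
      simpa using h0
    exact hz.ne' (im_zero_of_arg h1)
  · intro s hs1 hs2
    have h1 : PF N (fun k => (h k ^ (1 + (s / 2 - 1))) ^ 2) := by
      refine sc (fun k hk => Real.rpow_pos_of_pos (hpos k hk) _) (fun z hz => ?_)
      have h2 := hsec 3 (by norm_num) (s / 2 - 1) (by rw [abs_le]; constructor <;> linarith) z hz
      norm_num at h2
      exact h2
    refine h1.congr (fun k hk => ?_)
    have e : (1 + (s / 2 - 1)) * ((2 : ℕ) : ℝ) = s := by push_cast; ring
    rw [← Real.rpow_natCast, ← Real.rpow_mul (hpos k hk).le, e]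

/-- **Sections of real-rooted polynomials.** -/
theorem sections_pf (sc : ∀ {N : ℕ} {g : ℕ → ℝ}, (∀ k ≤ N, 0 < g k) →
      (∀ z : ℂ, ev N g z = 0 → |(-z).arg| ≤ Real.pi / 8) → PF N (fun k => g k ^ 2))
    (hL : ∀ {n : ℕ} (w : Fin n → ℝ), (∀ i, 0 < w i) → RFS53.OneReplica w univ)
    {n : ℕ} {a : ℕ → ℝ} (ha : PF n a) {s : ℝ}
    (hs : s = 1 ∨ (7 / 4 ≤ s ∧ s ≤ 9 / 4) ∨ (11 / 4 ≤ s ∧ s ≤ 13 / 4) ∨ 7 / 2 ≤ s) :
    PF (n / 2) (fun k => a (2 * k) ^ s) ∧ (1 ≤ n → PF ((n - 1) / 2) (fun k => a (2 * k + 1) ^ s)) := by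
  have hconst : ∀ f : ℕ → ℝ, 0 < f 0 → PF 0 f := by
    intro f hf
    refine ⟨fun k hk => by rw [Nat.le_zero.1 hk]; exact hf, fun z _ => ?_⟩
    simp only [ev, zero_add, range_one, sum_singleton, pow_zero, mul_one]
    exact_mod_cast hf.ne'
  rcases Nat.lt_or_ge n 2 with hn | hn
  · constructor
    · rw [show n / 2 = 0 by omega]
      exact hconst _ (Real.rpow_pos_of_pos (ha.1 0 (Nat.zero_le _)) _)
    · intro h1
      rw [show (n - 1) / 2 = 0 by omega]
      exact hconst _ (Real.rpow_pos_of_pos (ha.1 1 (by omega)) _)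
  · obtain ⟨w, hw, haw⟩ := exists_esy ha
    have ha0 := ha.1 0 (Nat.zero_le _)
    have hcard : (univ : Finset (Fin n)).card = n := by simp
    have hh : ∀ k ≤ n, 0 < RFS53.esy w univ k := fun k hk =>
      RFS53.esy_pos hw (by rw [hcard]; exact hk)
    have hsect := fun (m : ℕ) (hm : 1 ≤ m) (θ : ℝ) (hθ : |θ| ≤ ((1 : ℝ) / 2) ^ m) (z : ℂ) hz =>
      (RFS53.section_sector hw (V := (univ : Finset (Fin n))) (by rw [hcard]; exact hn) (hL w hw)
        hm hθ (z := z) hz).2
    rw [hcard] at hsect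
    constructor
    · have h1 : PF (n / 2) (fun k => RFS53.esy w univ (2 * k) ^ s) := by
        refine section_exponents sc (fun k hk => hh _ (by omega)) ?_ hs
        intro m hm θ hθ z hz
        exact hsect m hm θ hθ z (Or.inl hz)
      refine (h1.const_mul (Real.rpow_pos_of_pos ha0 s)).congr (fun k hk => ?_)
      rw [haw (2 * k) (by omega), Real.mul_rpow ha0.le (hh _ (by omega)).le]
    · intro _
      have h1 : PF ((n - 1) / 2) (fun k => RFS53.esy w univ (2 * k + 1) ^ s) := by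
        refine section_exponents sc (fun k hk => hh _ (by omega)) ?_ hs
        intro m hm θ hθ z hz
        refine hsect m hm θ hθ z (Or.inr ?_)
        rw [show (n + 1) / 2 = (n - 1) / 2 + 1 by omega]
        exact hz
      refine (h1.const_mul (Real.rpow_pos_of_pos ha0 s)).congr (fun k hk => ?_)
      rw [haw (2 * k + 1) (by omega), Real.mul_rpow ha0.le (hh _ (by omega)).le]

end Pool.Agent.RFS
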