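import Mathlib
import Pool.Agent.H62LR.Homotopy

/-!
# RFS: squares of the coefficients of polynomials with zeros in a sector of half angle `π/8`

Common definitions (proof of helper47, `/team-store/SC_helper47.md`).
-/

open Finset Complex

namespace Pool.Agent.RFS

open Pool.Agent.H62LR

/-- the multiset of the numbers `y j` is closed under conjugation -/
def CC {N : ℕ} (y : Fin N → ℂ) : Prop :=
  Multiset.map (fun j => (starRingEnd ℂ) (y j)) (univ : Finset (Fin N)).val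
    = Multiset.map y (univ : Finset (Fin N)).val

/-- `P(c) = ∏ (1 - y_j^2 + 2 i y_j c)` -/
noncomputable def PP {N : ℕ} (y : Fin N → ℂ) (c : ℂ) : ℂ := ∏ j, (1 - y j ^ 2 + 2 * I * y j * c)

/-- `a(y) = 2 i y / (1 + i y)^2` -/
noncomputable def aa (y : ℂ) : ℂ := 2 * I * y / (1 + I * y) ^ 2

/-- `ζ = ∑ a(y_j)` -/
noncomputable def zeta {N : ℕ} (y : Fin N → ℂ) : ℂ := ∑ j, aa (y j)

/-- `η = Im ζ / Re ζ` -/
noncomputable def eta {N : ℕ} (y : Fin N → ℂ) : ℝ := (zeta y).im / (zeta y).re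

/-- `H(b) = 2 √b ∫_0^1 P(1 - v^2 b) / √(2 - v^2 b) dv` -/
noncomputable def HH {N : ℕ} (y : Fin N → ℂ) (b : ℂ) : ℂ :=
  2 * b ^ (1 / 2 : ℂ) *
    ∫ v in (0 : ℝ)..1, PP y (1 - (v : ℂ) ^ 2 * b) / (2 - (v : ℂ) ^ 2 * b) ^ (1 / 2 : ℂ)

/-- `I = ∫_0^1 2 ∏ (1 - v^2 b_j) / √(2 - v^2 (1 - i η)) dv` -/
noncomputable def II {N : ℕ} (b : Fin N → ℂ) (η : ℝ) : ℂ :=
  ∫ v in (0 : ℝ)..1,
    2 * (∏ j, (1 - (v : ℂ) ^ 2 * b j)) / (2 - (v : ℂ) ^ 2 * (1 - I * (η : ℂ))) ^ (1 / 2 : ℂ)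

/-- the phase `Θ(r) = 2 ∑ arg (1 + i r w_j)` -/
noncomputable def Th {N : ℕ} (w : Fin N → ℂ) (r : ℝ) : ℝ := 2 * ∑ j, (1 + I * ((r : ℂ) * w j)).arg

/-- the corrected phase `Ψ(r) = Θ(r) - (3/4) arctan η` -/
noncomputable def Psi {N : ℕ} (w : Fin N → ℂ) (r : ℝ) : ℝ :=
  Th w r - 3 / 4 * Real.arctan (eta (fun j => (r : ℂ) * w j))

lemma CC.sum_comp {N : ℕ} {y : Fin N → ℂ} (h : CC y) {M : Type*} [AddCommMonoid M] (f : ℂ → M) :
    ∑ j, f ((starRingEnd ℂ) (y j)) = ∑ j, f (y j) := by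
  have h1 := congrArg (fun s => (Multiset.map f s).sum) h
  simpa [Multiset.map_map, Finset.sum, Function.comp_def] using h1

lemma CC.prod_comp {N : ℕ} {y : Fin N → ℂ} (h : CC y) {M : Type*} [CommMonoid M] (f : ℂ → M) :
    ∏ j, f ((starRingEnd ℂ) (y j)) = ∏ j, f (y j) := by
  have h1 := congrArg (fun s => (Multiset.map f s).prod) h
  simpa [Multiset.map_map, Finset.prod, Function.comp_def] using h1

lemma CC.smul {N : ℕ} {w : Fin N → ℂ} (h : CC w) (r : ℝ) : CC (fun j => (r : ℂ) * w j) := by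
  have h1 := congrArg (Multiset.map (fun z : ℂ => (r : ℂ) * z)) h
  unfold CC
  simpa [Multiset.map_map, Function.comp_def] using h1

end Pool.Agent.RFS
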