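import Mathlib
import Pool.Agent.RFS.Defs

/-!
# RFS: algebra of the factors `a(y) = 2iy/(1+iy)^2` (M3, helper47)
-/

open Finset Complex

namespace Pool.Agent.RFS

/-- the sector `|arg y| ≤ π/8` in algebraic form -/
def InSec (y : ℂ) : Prop :=
  0 < y.re ∧ 2 * Real.sqrt 2 * y.im ^ 2 ≤ (Real.sqrt 2 - 1) * (y.re ^ 2 + y.im ^ 2)

lemma InSec.of_arg {y : ℂ} (h0 : y ≠ 0) (h : |Complex.arg y| ≤ Real.pi / 8) : InSec y := by
  have hpi := Real.pi_pos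
  have hn : 0 < ‖y‖ := norm_pos_iff.mpr h0
  have hre : y.re = ‖y‖ * Real.cos (Complex.arg y) := by
    rw [Complex.norm_mul_cos_arg]
  have him : y.im = ‖y‖ * Real.sin (Complex.arg y) := by
    rw [Complex.norm_mul_sin_arg]
  have hs2 : (Real.sqrt 2 : ℝ) ^ 2 = 2 := Real.sq_sqrt (by norm_num)
  have hs0 : 0 ≤ Real.sqrt 2 := Real.sqrt_nonneg 2
  have hsin : Real.sin (Complex.arg y) ^ 2 ≤ (2 - Real.sqrt 2) / 4 := by
    have h1 : |Real.sin (Complex.arg y)| ≤ Real.sin (Real.pi / 8) := by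
      rw [abs_le] at h
      rw [abs_le]
      constructor
      · rw [← Real.sin_neg]
        apply Real.sin_le_sin_of_le_of_le_pi_div_two <;> linarith [h.1, h.2]
      · apply Real.sin_le_sin_of_le_of_le_pi_div_two <;> linarith [h.1, h.2]
    have h2 : Real.sin (Real.pi / 8) ^ 2 = (2 - Real.sqrt 2) / 4 := by
      rw [Real.sin_pi_div_eight, div_pow, Real.sq_sqrt]
      · norm_num
      · nlinarith
    rw [← h2, ← sq_abs (Real.sin (Complex.arg y))]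
    exact pow_le_pow_left₀ (abs_nonneg _) h1 2
  constructor
  · rw [hre]
    apply mul_pos hn
    apply Real.cos_pos_of_mem_Ioo
    rw [abs_le] at h
    constructor <;> linarith [h.1, h.2]
  · have hnn : y.re ^ 2 + y.im ^ 2 = ‖y‖ ^ 2 := by
      rw [← Complex.normSq_eq_norm_sq, Complex.normSq_apply]; ring
    rw [hnn, him, mul_pow]
    have : 2 * Real.sqrt 2 * Real.sin (Complex.arg y) ^ 2 ≤ Real.sqrt 2 - 1 := by nlinarith
    nlinarith [mul_le_mul_of_nonneg_left this (sq_nonneg ‖y‖)]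

lemma one_add_I_mul_ne' {y : ℂ} (h : 0 < y.re) : 1 + I * y ≠ 0 := by
  intro h0
  have := congrArg Complex.im h0
  simp at this
  linarith

/-- general facts on one `y` with `|arg y| ≤ π/8` -/
theorem one_add_I_mul_ne {y : ℂ} (hy : y ≠ 0) (ha : |y.arg| ≤ Real.pi / 8) : 1 + I * y ≠ 0 :=
  one_add_I_mul_ne' (InSec.of_arg hy ha).1

lemma factor_eq {y : ℂ} (h : 1 + I * y ≠ 0) (s : ℂ) :
    1 - y ^ 2 + 2 * I * y * (1 - s) = (1 + I * y) ^ 2 * (1 - s * aa y) := by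
  have h2 : (1 + I * y) ^ 2 ≠ 0 := pow_ne_zero 2 h
  have h3 : (1 + I * y) ^ 2 * aa y = 2 * I * y := by
    unfold aa
    rw [mul_div_cancel₀ _ h2]
  have h4 : (1 + I * y) ^ 2 * (1 - s * aa y) = (1 + I * y) ^ 2 - s * ((1 + I * y) ^ 2 * aa y) := by
    ring
  rw [h4, h3]
  have : I ^ 2 = -1 := Complex.I_sq
  linear_combination (-(y ^ 2)) * this

lemma aa_ne {y : ℂ} (h0 : y ≠ 0) (h : 1 + I * y ≠ 0) : aa y ≠ 0 := by
  unfold aa
  apply div_ne_zero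
  · apply mul_ne_zero (mul_ne_zero two_ne_zero Complex.I_ne_zero) h0
  · exact pow_ne_zero 2 h

lemma normSq_one_add (y : ℂ) :
    Complex.normSq (1 + I * y) = 1 + (y.re ^ 2 + y.im ^ 2) - 2 * y.im := by
  rw [Complex.normSq_apply]
  simp
  ring

lemma norm_aa_sq (y : ℂ) :
    ‖aa y‖ ^ 2 = 4 * (y.re ^ 2 + y.im ^ 2) / (1 + (y.re ^ 2 + y.im ^ 2) - 2 * y.im) ^ 2 := by
  unfold aa
  rw [← Complex.normSq_eq_norm_sq, map_div₀, map_pow, normSq_one_add, map_mul, map_mul]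
  congr 1
  rw [Complex.normSq_apply y]
  simp [Complex.normSq_apply]
  ring

lemma re_aa (y : ℂ) :
    (aa y).re = (4 * (y.re ^ 2 + y.im ^ 2) - 2 * y.im * (1 + (y.re ^ 2 + y.im ^ 2))) /
      (1 + (y.re ^ 2 + y.im ^ 2) - 2 * y.im) ^ 2 := by
  unfold aa
  rw [Complex.div_re, map_pow, normSq_one_add, ← add_div]
  congr 1
  simp only [pow_two, Complex.mul_re, Complex.mul_im, Complex.add_re, Complex.add_im,
    Complex.one_re, Complex.one_im, Complex.I_re, Complex.I_im, Complex.re_ofNat, Complex.im_ofNat]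
  ring

/-- the key inequality -/
lemma key_aa {y : ℂ} (h : InSec y) :
    ‖aa y‖ ^ 2 + ‖aa ((starRingEnd ℂ) y)‖ ^ 2 ≤
      Real.sqrt 2 * ((aa y).re + (aa ((starRingEnd ℂ) y)).re) := by
  obtain ⟨hp, hs⟩ := h
  rw [norm_aa_sq, norm_aa_sq, re_aa, re_aa]
  simp only [Complex.conj_re, Complex.conj_im]
  set p := y.re
  set q := y.im
  have hs2 : (Real.sqrt 2 : ℝ) ^ 2 = 2 := Real.sq_sqrt (by norm_num)
  have hs0 : 0 ≤ Real.sqrt 2 := Real.sqrt_nonneg 2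
  have hs1 : 1 ≤ Real.sqrt 2 := by
    rw [Real.one_le_sqrt]; norm_num
  have e1 : (-q) ^ 2 = q ^ 2 := by ring
  rw [e1]
  set n := p ^ 2 + q ^ 2 with hndef
  have hn : 0 < n := by positivity
  have hDm : 0 < 1 + n - 2 * q := by nlinarith [sq_nonneg (q - 1), sq_nonneg p]
  have hDp : 0 < 1 + n - 2 * -q := by nlinarith [sq_nonneg (q + 1), sq_nonneg p]
  have hm2 : (1 + n - 2 * q) ^ 2 ≠ 0 := by positivity
  have hp2 : (1 + n - 2 * -q) ^ 2 ≠ 0 := by positivity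
  have e2 : 4 * n / (1 + n - 2 * q) ^ 2 + 4 * n / (1 + n - 2 * -q) ^ 2 =
      4 * n * (2 * (1 + n) ^ 2 + 8 * q ^ 2) / ((1 + n - 2 * q) ^ 2 * (1 + n - 2 * -q) ^ 2) := by
    rw [div_add_div _ _ hm2 hp2]
    congr 1
    ring
  have e3 : (4 * n - 2 * q * (1 + n)) / (1 + n - 2 * q) ^ 2 +
      (4 * n - 2 * -q * (1 + n)) / (1 + n - 2 * -q) ^ 2 =
      (4 * n * (2 * (1 + n) ^ 2 + 8 * q ^ 2) - 16 * (1 + n) ^ 2 * q ^ 2) /
        ((1 + n - 2 * q) ^ 2 * (1 + n - 2 * -q) ^ 2) := by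
    rw [div_add_div _ _ hm2 hp2]
    congr 1
    ring
  rw [e2, e3, ← mul_div_assoc]
  apply div_le_div_of_nonneg_right _ (by positivity)
  have h1 : 2 * Real.sqrt 2 * q ^ 2 * (8 * (1 + n) ^ 2) ≤ (Real.sqrt 2 - 1) * n * (8 * (1 + n) ^ 2) :=
    mul_le_mul_of_nonneg_right hs (by positivity)
  have h2 : 0 ≤ (Real.sqrt 2 - 1) * n * q ^ 2 := by
    apply mul_nonneg (mul_nonneg (by linarith) hn.le) (sq_nonneg q)
  nlinarith

theorem sum_sq {N : ℕ} {y : Fin N → ℂ} (hcc : CC y) (hne : ∀ j, y j ≠ 0)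
    (harg : ∀ j, |(y j).arg| ≤ Real.pi / 8) :
    ∑ j, ‖aa (y j)‖ ^ 2 ≤ Real.sqrt 2 * (zeta y).re := by
  have h1 : ∑ j, (‖aa (y j)‖ ^ 2 + ‖aa ((starRingEnd ℂ) (y j))‖ ^ 2) ≤
      ∑ j, Real.sqrt 2 * ((aa (y j)).re + (aa ((starRingEnd ℂ) (y j))).re) :=
    Finset.sum_le_sum (fun j _ => key_aa (InSec.of_arg (hne j) (harg j)))
  rw [Finset.sum_add_distrib, ← Finset.mul_sum, Finset.sum_add_distrib,
    hcc.sum_comp (fun z => ‖aa z‖ ^ 2), hcc.sum_comp (fun z => (aa z).re)] at h1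
  unfold zeta
  rw [Complex.re_sum]
  linarith

theorem zeta_re_pos {N : ℕ} (hN : 0 < N) {y : Fin N → ℂ} (hcc : CC y) (hne : ∀ j, y j ≠ 0)
    (harg : ∀ j, |(y j).arg| ≤ Real.pi / 8) : 0 < (zeta y).re := by
  have h1 := sum_sq hcc hne harg
  have h2 : 0 < ∑ j, ‖aa (y j)‖ ^ 2 := by
    apply Finset.sum_pos
    · intro j _
      have := norm_pos_iff.mpr (aa_ne (hne j) (one_add_I_mul_ne (hne j) (harg j)))
      positivity
    · exact ⟨⟨0, hN⟩, Finset.mem_univ _⟩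
  have h3 : 0 < Real.sqrt 2 := by positivity
  by_contra h
  push Not at h
  have := mul_nonpos_of_nonneg_of_nonpos h3.le h
  linarith

theorem PP_one_sub {N : ℕ} {y : Fin N → ℂ} (hne : ∀ j, y j ≠ 0)
    (harg : ∀ j, |(y j).arg| ≤ Real.pi / 8) (s : ℂ) :
    PP y (1 - s) = (∏ j, (1 + I * y j) ^ 2) * ∏ j, (1 - s * aa (y j)) := by
  unfold PP
  rw [← Finset.prod_mul_distrib]
  apply Finset.prod_congr rfl
  intro j _
  exact factor_eq (one_add_I_mul_ne (hne j) (harg j)) s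

lemma one_sub_eta {N : ℕ} {y : Fin N → ℂ} (hpos : 0 < (zeta y).re) :
    (1 - I * (eta y : ℂ)) = (starRingEnd ℂ) (zeta y) / ((zeta y).re : ℂ) := by
  have hre : ((zeta y).re : ℂ) ≠ 0 := by exact_mod_cast hpos.ne'
  rw [eq_div_iff hre]
  have h1 : (starRingEnd ℂ) (zeta y) = ((zeta y).re : ℂ) - ((zeta y).im : ℂ) * I := by
    apply Complex.ext <;> simp
  have h2 : (eta y : ℂ) * ((zeta y).re : ℂ) = ((zeta y).im : ℂ) := by
    unfold eta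
    push_cast
    rw [div_mul_cancel₀ _ hre]
  rw [h1]
  linear_combination (-I) * h2

/-- `b_j = (1 - i η) a_j` -/
theorem sum_b {N : ℕ} {y : Fin N → ℂ} (hpos : 0 < (zeta y).re) :
    ∑ j, (1 - I * (eta y : ℂ)) * aa (y j) = ((normSq (zeta y) / (zeta y).re : ℝ) : ℂ) := by
  rw [← Finset.mul_sum]
  have : ∑ j, aa (y j) = zeta y := rfl
  rw [this, one_sub_eta hpos]
  push_cast
  rw [div_mul_eq_mul_div, mul_comm ((starRingEnd ℂ) (zeta y)) (zeta y), Complex.mul_conj]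

theorem sum_sq_b {N : ℕ} {y : Fin N → ℂ} (hpos : 0 < (zeta y).re)
    (hsq : ∑ j, ‖aa (y j)‖ ^ 2 ≤ Real.sqrt 2 * (zeta y).re) :
    ∑ j, ‖(1 - I * (eta y : ℂ)) * aa (y j)‖ ^ 2
      ≤ Real.sqrt 2 * (normSq (zeta y) / (zeta y).re) := by
  have h1 : ∑ j, ‖(1 - I * (eta y : ℂ)) * aa (y j)‖ ^ 2 =
      ‖(1 - I * (eta y : ℂ))‖ ^ 2 * ∑ j, ‖aa (y j)‖ ^ 2 := by
    rw [Finset.mul_sum]
    apply Finset.sum_congr rfl
    intro j _
    rw [norm_mul, mul_pow]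
  have h2 : ‖(1 - I * (eta y : ℂ))‖ ^ 2 * (zeta y).re = normSq (zeta y) / (zeta y).re := by
    rw [one_sub_eta hpos, norm_div, div_pow, ← Complex.normSq_eq_norm_sq, Complex.normSq_conj,
      Complex.norm_real, Real.norm_eq_abs, sq_abs]
    field_simp
  rw [h1]
  calc ‖(1 - I * (eta y : ℂ))‖ ^ 2 * ∑ j, ‖aa (y j)‖ ^ 2
      ≤ ‖(1 - I * (eta y : ℂ))‖ ^ 2 * (Real.sqrt 2 * (zeta y).re) :=
        mul_le_mul_of_nonneg_left hsq (by positivity)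
    _ = Real.sqrt 2 * (‖(1 - I * (eta y : ℂ))‖ ^ 2 * (zeta y).re) := by ring
    _ = Real.sqrt 2 * (normSq (zeta y) / (zeta y).re) := by rw [h2]

theorem HH_eq {N : ℕ} {y : Fin N → ℂ} (hne : ∀ j, y j ≠ 0)
    (harg : ∀ j, |(y j).arg| ≤ Real.pi / 8) (η : ℝ) :
    HH y (1 - I * (η : ℂ)) = (∏ j, (1 + I * y j) ^ 2) * (1 - I * (η : ℂ)) ^ (1 / 2 : ℂ)
      * II (fun j => (1 - I * (η : ℂ)) * aa (y j)) η := by
  unfold HH II
  have e : ∀ v : ℝ, 2 * (∏ j, (1 - (v : ℂ) ^ 2 * ((1 - I * (η : ℂ)) * aa (y j)))) /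
      (2 - (v : ℂ) ^ 2 * (1 - I * (η : ℂ))) ^ (1 / 2 : ℂ) =
      2 * ((∏ j, (1 - ((v : ℂ) ^ 2 * (1 - I * (η : ℂ))) * aa (y j))) /
      (2 - (v : ℂ) ^ 2 * (1 - I * (η : ℂ))) ^ (1 / 2 : ℂ)) := by
    intro v
    rw [mul_div_assoc]
    congr 3
    funext j
    ring
  have e2 : ∀ v : ℝ, PP y (1 - (v : ℂ) ^ 2 * (1 - I * (η : ℂ))) /
      (2 - (v : ℂ) ^ 2 * (1 - I * (η : ℂ))) ^ (1 / 2 : ℂ) = (∏ j, (1 + I * y j) ^ 2) *
      ((∏ j, (1 - ((v : ℂ) ^ 2 * (1 - I * (η : ℂ))) * aa (y j))) /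
      (2 - (v : ℂ) ^ 2 * (1 - I * (η : ℂ))) ^ (1 / 2 : ℂ)) := by
    intro v
    rw [PP_one_sub hne harg]
    ring
  simp only [e, e2]
  rw [intervalIntegral.integral_const_mul, intervalIntegral.integral_const_mul]
  ring

end Pool.Agent.RFS
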