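import Mathlib
import Pool.Agent.RFS.Defs
import Pool.Agent.SC47.Core

/-!
# RFS: core lemma (M1)
-/

open Finset Complex

namespace Pool.Agent.RFS

theorem core {N : ℕ} (b : Fin N → ℂ) {R η : ℝ} (hR : 0 < R) (hsum : ∑ j, b j = (R : ℂ))
    (hsq : ∑ j, ‖b j‖ ^ 2 ≤ Real.sqrt 2 * R) :
    0 < (Complex.exp (I * ((Real.arctan η / 4 : ℝ) : ℂ)) * II b η).re := by
  have h := SC47.core' b R η hR hsum hsq
  have e : II b η = 2 * ∫ v in (0:ℝ)..1, SC47.WW b v * SC47.hh η v := by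
    unfold II
    rw [← intervalIntegral.integral_const_mul]
    apply intervalIntegral.integral_congr
    intro v _
    simp only [SC47.WW, SC47.hh]
    have h1 : SC47.zz η v = 2 - (v : ℂ) ^ 2 * (1 - Complex.I * (η : ℂ)) := by
      rw [SC47.zz_eq]; ring
    rw [← h1]
    have h2 : (((-(1 / 2) : ℝ)) : ℂ) = -(1 / 2 : ℂ) := by push_cast; ring
    rw [h2, Complex.cpow_neg]
    ring
  rw [e]
  have e2 : Complex.exp (Complex.I * ((Real.arctan η / 4 : ℝ) : ℂ)) *
      (2 * ∫ v in (0:ℝ)..1, SC47.WW b v * SC47.hh η v) =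
      ((2 : ℝ) : ℂ) * (Complex.exp (((Real.arctan η / 4 : ℝ) : ℂ) * Complex.I) *
        ∫ v in (0:ℝ)..1, SC47.WW b v * SC47.hh η v) := by
    rw [mul_comm Complex.I]
    push_cast
    ring
  rw [e2, Complex.re_ofReal_mul]
  linarith

end Pool.Agent.RFS
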