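import Pool.Agent.RFS.Defs

/-! Counting the sign changes. -/

open Finset Filter Topology Polynomial

namespace Pool.Agent.RFS

open Pool.Agent.H62LR

/-- sign of a polynomial at `-∞` -/
lemma sign_atTop {N : ℕ} (hN : 0 < N) {f : ℕ → ℝ} (hf : ∀ k ≤ N, 0 < f k) :
    ∀ᶠ x in atTop, 0 < (-1) ^ N * (poly N f).eval (-x) := by
  have hdeg : (poly N f).natDegree = N := natDegree_poly (hf N le_rfl).ne'
  have hlead : (poly N f).leadingCoeff = f N := by
    rw [leadingCoeff, hdeg, coeff_poly, if_pos le_rfl]
  set P : ℝ[X] := C ((-1) ^ N) * (poly N f).comp (-X) with hP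
  have hlP : P.leadingCoeff = f N := by
    rw [hP, leadingCoeff_mul, leadingCoeff_C,
      leadingCoeff_comp (by rw [natDegree_neg, natDegree_X]; exact one_ne_zero), hlead, hdeg,
      leadingCoeff_neg, leadingCoeff_X]
    rw [mul_comm (f N), ← mul_assoc, ← mul_pow]
    norm_num
  have hdP : P.natDegree = N := by
    rw [hP, natDegree_C_mul (by positivity), natDegree_comp, hdeg, natDegree_neg, natDegree_X,
      mul_one]
  have h1 : Tendsto (fun x => P.eval x) atTop atTop := by
    apply Polynomial.tendsto_atTop_of_leadingCoeff_nonneg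
    · rw [← natDegree_pos_iff_degree_pos, hdP]
      exact hN
    · rw [hlP]
      exact (hf N le_rfl).le
  filter_upwards [h1.eventually (eventually_gt_atTop 0)] with x hx
  have : P.eval x = (-1) ^ N * (poly N f).eval (-x) := by
    rw [hP]
    simp
  rwa [this] at hx

lemma ev_re {N : ℕ} {f : ℕ → ℝ} (r : ℝ) :
    (ev N f (-(r : ℂ) ^ 2)).re = (poly N f).eval (-(r ^ 2)) := by
  have h : ev N f (-(r : ℂ) ^ 2) = (((poly N f).eval (-(r ^ 2)) : ℝ) : ℂ) := by
    rw [eval_poly]
    unfold ev
    push_cast
    rfl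
  rw [h, Complex.ofReal_re]

/-- the sequence of the points with phase `k π` -/
lemma exists_seq {N : ℕ} {Ψ : ℝ → ℝ} (hc : ContinuousOn Ψ (Set.Ioi 0))
    (h0 : ∀ᶠ r in 𝓝[>] (0 : ℝ), Ψ r < Real.pi)
    (h1 : ∀ᶠ r in atTop, ((N : ℝ) - 1) * Real.pi < Ψ r) :
    ∀ m : ℕ, m + 1 < N → ∃ ρ : ℕ → ℝ, (∀ k ≤ m, 0 < ρ k ∧ Ψ (ρ k) = ((k : ℝ) + 1) * Real.pi) ∧
      ∀ k < m, ρ k < ρ (k + 1) := by
  intro m
  have step : ∀ (s t : ℝ), 0 < s → Ψ s < t → t ≤ ((N : ℝ) - 1) * Real.pi →
      ∃ r, s < r ∧ Ψ r = t := by
    intro s t hs hst ht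
    obtain ⟨R, hR1, hR2⟩ := (h1.and (eventually_gt_atTop s)).exists
    have hcc : ContinuousOn Ψ (Set.Icc s R) := hc.mono (fun x hx => hs.trans_le hx.1)
    obtain ⟨r, hr, hr2⟩ := intermediate_value_Ioo hR2.le hcc ⟨hst, ht.trans_lt hR1⟩
    exact ⟨r, hr.1, hr2⟩
  induction m with
  | zero =>
    intro hm
    obtain ⟨s, hs1, hs2⟩ := (h0.and self_mem_nhdsWithin).exists
    have hs2' : (0 : ℝ) < s := hs2
    have hN : (2 : ℝ) ≤ N := by exact_mod_cast hm
    obtain ⟨r, hr1, hr2⟩ := step s Real.pi hs2' hs1 (by nlinarith [Real.pi_pos])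
    refine ⟨fun _ => r, fun k hk => ⟨hs2'.trans hr1, ?_⟩, fun k hk => by omega⟩
    have : k = 0 := by omega
    subst this
    rw [hr2]
    simp
  | succ m ih =>
    intro hm
    obtain ⟨ρ, hρ1, hρ2⟩ := ih (by omega)
    have hN : ((m : ℝ) + 1 + 2) ≤ N := by exact_mod_cast hm
    obtain ⟨r, hr1, hr2⟩ := step (ρ m) (((m : ℝ) + 1 + 1) * Real.pi) (hρ1 m le_rfl).1
      (by rw [(hρ1 m le_rfl).2]; nlinarith [Real.pi_pos]) (by nlinarith [Real.pi_pos])
    refine ⟨fun k => if k ≤ m then ρ k else r, fun k hk => ?_, fun k hk => ?_⟩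
    · by_cases h : k ≤ m
      · simp only [h, if_true]
        exact hρ1 k h
      · have hk' : k = m + 1 := by omega
        subst hk'
        simp only [h, if_false]
        refine ⟨(hρ1 m le_rfl).1.trans hr1, ?_⟩
        rw [hr2]
        push_cast
        ring
    · by_cases h : k + 1 ≤ m
      · simp only [h, (show k ≤ m by omega), if_true]
        exact hρ2 k (by omega)
      · have hk' : k = m := by omega
        subst hk'
        simp only [h, le_refl, if_true, if_false]
        exact hr1

/-- abstract count of the sign changes -/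
theorem count {N : ℕ} (hN : 0 < N) {f : ℕ → ℝ} (hf : ∀ k ≤ N, 0 < f k) {Ψ : ℝ → ℝ}
    (hc : ContinuousOn Ψ (Set.Ioi 0)) (h0 : ∀ᶠ r in 𝓝[>] (0 : ℝ), Ψ r < Real.pi)
    (h1 : ∀ᶠ r in atTop, ((N : ℝ) - 1) * Real.pi < Ψ r)
    (hs : ∀ r : ℝ, 0 < r → ∀ k : ℕ, Ψ r = k * Real.pi →
      0 < (-1) ^ k * (ev N f (-(r : ℂ) ^ 2)).re) :
    PF N f := by
  set q : ℝ → ℝ := fun x => (poly N f).eval (-x) with hq
  have hqc : Continuous q := (poly N f).continuous.comp continuous_neg
  -- the points
  obtain ⟨y, hy1, hy2⟩ : ∃ y : ℕ → ℝ, (∀ k ≤ N, 0 < (-1) ^ k * q (y k)) ∧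
      ∀ k < N, y k < y (k + 1) := by
    have hq0 : 0 < q 0 := by
      simp only [hq, neg_zero, eval_poly]
      rw [Finset.sum_range_succ']
      simp [hf 0 (Nat.zero_le _)]
    have hinf := sign_atTop hN hf
    rcases Nat.lt_or_ge 1 N with h2 | h2
    · obtain ⟨ρ, hρ1, hρ2⟩ := exists_seq hc h0 h1 (N - 2) (by omega)
      obtain ⟨X, hX1, hX2⟩ := (hinf.and (eventually_gt_atTop (ρ (N - 2) ^ 2))).exists
      refine ⟨fun k => if k = 0 then 0 else if k < N then ρ (k - 1) ^ 2 else X, fun k hk => ?_,
        fun k hk => ?_⟩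
      · by_cases hk0 : k = 0
        · subst hk0
          simpa using hq0
        · by_cases hkN : k < N
          · simp only [hk0, hkN, if_true, if_false]
            have := hρ1 (k - 1) (by omega)
            have h3 := hs _ this.1 k (by
              rw [this.2]
              have : ((k - 1 : ℕ) : ℝ) + 1 = k := by
                rw [Nat.cast_sub (by omega)]
                simp
              rw [this])
            rwa [ev_re] at h3
          · have hk' : k = N := by omega
            subst hk'
            simp only [hk0, hkN, if_false]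
            exact hX1
      · by_cases hk0 : k = 0
        · subst hk0
          simp only [zero_add, if_true, one_ne_zero, if_false, h2]
          exact pow_pos (hρ1 0 (Nat.zero_le _)).1 2
        · simp only [hk0, hk, if_true, if_false, Nat.succ_ne_zero]
          by_cases hkN : k + 1 < N
          · simp only [hkN, if_true, Nat.add_sub_cancel]
            have h3 := hρ2 (k - 1) (by omega)
            rw [show k - 1 + 1 = k by omega] at h3
            exact pow_lt_pow_left₀ h3 (hρ1 (k - 1) (by omega)).1.le two_ne_zero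
          · simp only [hkN, if_false]
            rwa [show k - 1 = N - 2 by omega]
    · have hN1 : N = 1 := by omega
      subst hN1
      obtain ⟨X, hX1, hX2⟩ := (hinf.and (eventually_gt_atTop 0)).exists
      refine ⟨fun k => if k = 0 then 0 else X, fun k hk => ?_, fun k hk => ?_⟩
      · by_cases hk0 : k = 0
        · subst hk0
          simpa using hq0
        · have hk' : k = 1 := by omega
          subst hk'
          simp only [hk0, if_false]
          exact hX1
      · have hk' : k = 0 := by omega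
        subst hk'
        simpa using hX2
  -- the roots
  have hroot : ∀ k, k < N → ∃ z, y k < z ∧ z < y (k + 1) ∧ q z = 0 := by
    intro k hk
    have h1 := hy1 k (by omega)
    have h2 := hy1 (k + 1) (by omega)
    have hg : ContinuousOn (fun x => (-1 : ℝ) ^ k * q x) (Set.Icc (y k) (y (k + 1))) :=
      (continuous_const.mul hqc).continuousOn
    have h3 : (-1 : ℝ) ^ k * q (y (k + 1)) < 0 := by
      rw [pow_succ] at h2
      linarith
    obtain ⟨z, hz, hz0⟩ := intermediate_value_Ioo' (hy2 k hk).le hg ⟨h3, h1⟩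
    refine ⟨z, hz.1, hz.2, ?_⟩
    have : (-1 : ℝ) ^ k ≠ 0 := by positivity
    exact (mul_eq_zero.1 hz0).resolve_left this
  choose! z hz1 hz2 hz3 using hroot
  have hmono : ∀ i j, i < j → j < N → z i < z j := by
    intro i j hij hj
    have hyy : ∀ d, i + 1 + d ≤ N → y (i + 1) ≤ y (i + 1 + d) := by
      intro d
      induction d with
      | zero => intro _; exact le_rfl
      | succ d ih =>
        intro hd
        exact (ih (by omega)).trans (hy2 (i + 1 + d) (by omega)).le
    have h1 := hyy (j - (i + 1)) (by omega)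
    rw [show i + 1 + (j - (i + 1)) = j by omega] at h1
    exact (hz2 i (by omega)).trans_le (h1.trans (hz1 j hj).le)
  refine pf_of_roots hf ((range N).image (fun k => -z k)) ?_ ?_
  · rw [Finset.card_image_of_injOn, Finset.card_range]
    intro i hi j hj hij
    have hi' : i < N := by simpa using hi
    have hj' : j < N := by simpa using hj
    simp only [neg_inj] at hij
    rcases lt_trichotomy i j with h1 | h1 | h1
    · exact absurd hij (hmono i j h1 hj').ne
    · exact h1
    · exact absurd hij (hmono j i h1 hi').ne'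
  · intro x hx
    obtain ⟨k, hk, rfl⟩ := Finset.mem_image.1 hx
    exact hz3 k (Finset.mem_range.1 hk)

end Pool.Agent.RFS
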