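import Pool.Agent.RFS.Defs

/-!
# Factorisation of a polynomial with roots in a sector
-/

open Finset Complex Filter Topology Polynomial

namespace Pool.Agent.RFS

open Pool.Agent.H62LR

/-- every multiset with `n` elements is the image of `Fin n` -/
theorem exists_fin {α : Type*} {n : ℕ} {s : Multiset α} (h : Multiset.card s = n) :
    ∃ f : Fin n → α, Multiset.map f (univ : Finset (Fin n)).val = s := by
  subst h
  induction s using Quotient.inductionOn with
  | h l =>
    refine ⟨fun i => l.get i, ?_⟩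
    rw [Fin.univ_val_map]
    exact congrArg _ (List.ofFn_get l)

theorem exists_w {N : ℕ} {g : ℕ → ℝ} (hg : ∀ k ≤ N, 0 < g k)
    (hz : ∀ z : ℂ, ev N g z = 0 → |(-z).arg| ≤ Real.pi / 8) :
    ∃ w : Fin N → ℂ, (∀ z : ℂ, ev N g z = (g 0 : ℂ) * ∏ j, (1 + w j * z)) ∧ (∀ j, w j ≠ 0) ∧
      (∀ j, |(w j).arg| ≤ Real.pi / 8) ∧ CC w := by
  set p : ℝ[X] := poly N g with hp
  set P : ℂ[X] := p.map (algebraMap ℝ ℂ) with hP
  have hdeg : P.natDegree = N := by
    rw [hP, natDegree_map, hp, natDegree_poly (hg N le_rfl).ne']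
  have hev : ∀ z : ℂ, P.eval z = ev N g z := by
    intro z
    rw [hP, eval_map_algebraMap, hp, aeval_poly]
  have hP0 : P ≠ 0 := by
    intro h
    have h1 := hev 0
    rw [h, eval_zero] at h1
    have h2 : ev N g 0 = (g 0 : ℂ) := by
      unfold ev
      rw [Finset.sum_range_succ']
      simp
    rw [h2] at h1
    have := hg 0 (Nat.zero_le _)
    exact this.ne (by exact_mod_cast h1)
  have hsplit : P.Splits := IsAlgClosed.splits P
  have hcard : Multiset.card P.roots = N := by
    rw [splits_iff_card_roots.1 hsplit, hdeg]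
  obtain ⟨f, hf⟩ := exists_fin hcard
  have hroot : ∀ j, ev N g (f j) = 0 := by
    intro j
    rw [← hev]
    have h1 : f j ∈ P.roots := by
      rw [← hf]
      exact Multiset.mem_map_of_mem f (Finset.mem_univ j)
    exact (mem_roots hP0).1 h1
  have hf0 : ∀ j, f j ≠ 0 := by
    intro j h
    have h1 := hroot j
    rw [h] at h1
    have h2 : ev N g 0 = (g 0 : ℂ) := by
      unfold ev
      rw [Finset.sum_range_succ']
      simp
    rw [h2] at h1
    have := hg 0 (Nat.zero_le _)
    exact this.ne' (by exact_mod_cast h1)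
  have hprod : ∀ z : ℂ, ev N g z = P.leadingCoeff * ∏ j, (z - f j) := by
    intro z
    rw [← hev]
    conv_lhs => rw [hsplit.eq_prod_roots]
    rw [eval_mul, eval_C, eval_multiset_prod, Multiset.map_map]
    congr 1
    rw [← hf, Multiset.map_map]
    simp only [Function.comp_def, eval_sub, eval_X, eval_C]
    rfl
  refine ⟨fun j => -(f j)⁻¹, ?_, ?_, ?_, ?_⟩
  · intro z
    have h0 : (g 0 : ℂ) = P.leadingCoeff * ∏ j, (0 - f j) := by
      rw [← hprod 0]
      unfold ev
      rw [Finset.sum_range_succ']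
      simp
    rw [hprod z, h0, mul_assoc, ← Finset.prod_mul_distrib]
    congr 1
    refine Finset.prod_congr rfl fun j _ => ?_
    have := hf0 j
    field_simp
    ring
  · intro j
    exact neg_ne_zero.2 (inv_ne_zero (hf0 j))
  · intro j
    change |(-(f j)⁻¹).arg| ≤ Real.pi / 8
    rw [show -(f j)⁻¹ = (-(f j))⁻¹ by rw [neg_inv], abs_arg_inv]
    exact hz _ (hroot j)
  · have h1 : P.map (starRingEnd ℂ) = P := by
      rw [hP, Polynomial.map_map]
      congr 1
      ext x
      simp
    have h2 : P.roots.map (starRingEnd ℂ) = P.roots := by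
      rw [← hsplit.roots_map (starRingEnd ℂ), h1]
    rw [← hf, Multiset.map_map] at h2
    have h3 := congrArg (Multiset.map (fun z : ℂ => -z⁻¹)) h2
    rw [Multiset.map_map, Multiset.map_map] at h3
    unfold CC
    have h4 : (fun j => (starRingEnd ℂ) (-(f j)⁻¹)) = (fun z : ℂ => -z⁻¹) ∘ ((starRingEnd ℂ) ∘ f) := by
      funext j
      simp
    rw [h4, h3]
    rfl

end Pool.Agent.RFS
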