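import Pool.Agent.RFS.Defs

/-!
# RFS (M2a): the integral formula for the squared coefficients
-/

open Finset Complex MeasureTheory

namespace Pool.Agent.RFS

open Pool.Agent.H62LR

lemma PP_continuous {N : ℕ} (y : Fin N → ℂ) : Continuous (PP y) := by
  unfold PP
  fun_prop

/-- `P(-c)` is the conjugate of `P(c)` for real `c` -/
lemma PP_neg_conj {N : ℕ} {y : Fin N → ℂ} (hcc : CC y) (c : ℝ) :
    PP y (-(c : ℂ)) = (starRingEnd ℂ) (PP y (c : ℂ)) := by
  unfold PP
  rw [map_prod]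
  have h := hcc.prod_comp (fun z : ℂ => 1 - z ^ 2 + 2 * I * z * (-(c : ℂ)))
  rw [← h]
  refine Finset.prod_congr rfl (fun j _ => ?_)
  simp only [map_add, map_sub, map_one, map_mul, map_pow, conj_I, conj_ofReal]
  have h2 : (starRingEnd ℂ) (2 : ℂ) = 2 := by
    have := conj_ofReal (2 : ℝ)
    simpa using this
  rw [h2]
  ring

/-- the product formula `P(cos t) g_0^2 = G(i r e^{it}) G(i r e^{-it})` -/
lemma PP_cos {N : ℕ} {g : ℕ → ℝ} {w : Fin N → ℂ}
    (hw : ∀ z : ℂ, ev N g z = (g 0 : ℂ) * ∏ j, (1 + w j * z)) (r t : ℝ) :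
    (g 0 : ℂ) ^ 2 * PP (fun j => (r : ℂ) * w j) (Real.cos t : ℂ)
      = ev N g (I * r * Complex.exp (I * t)) * ev N g (I * r * Complex.exp (-(I * t))) := by
  rw [hw, hw]
  have h1 : PP (fun j => (r : ℂ) * w j) (Real.cos t : ℂ)
      = (∏ j, (1 + w j * (I * r * Complex.exp (I * t))))
        * ∏ j, (1 + w j * (I * r * Complex.exp (-(I * t)))) := by
    unfold PP
    rw [← Finset.prod_mul_distrib]
    refine Finset.prod_congr rfl (fun j _ => ?_)
    have hc : (Real.cos t : ℂ) = (Complex.exp (I * t) + Complex.exp (-(I * t))) / 2 := by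
      rw [Complex.ofReal_cos, Complex.cos]
      congr 3 <;> ring
    have he : Complex.exp (I * t) * Complex.exp (-(I * t)) = 1 := by
      rw [← Complex.exp_add]; simp
    have hI : I * I = -1 := I_mul_I
    rw [hc]
    have : (1 + w j * (I * r * Complex.exp (I * t))) * (1 + w j * (I * r * Complex.exp (-(I * t))))
        = 1 + w j * I * r * (Complex.exp (I * t) + Complex.exp (-(I * t)))
          + w j ^ 2 * (I * I) * r ^ 2 * (Complex.exp (I * t) * Complex.exp (-(I * t))) := by ring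
    rw [this, he, hI]
    ring
  rw [h1]
  ring

/-- orthogonality -/
lemma orth (r : ℝ) {N : ℕ} (g : ℕ → ℝ) :
    ∫ t in (0 : ℝ)..(2 * Real.pi),
        ev N g (I * r * Complex.exp (I * t)) * ev N g (I * r * Complex.exp (-(I * t)))
      = 2 * Real.pi * ev N (fun k => g k ^ 2) (-(r : ℂ) ^ 2) := by
  have hexp : ∀ (k l : ℕ) (t : ℝ), (Complex.exp (I * t)) ^ k * (Complex.exp (-(I * t))) ^ l
      = Complex.exp ((I * ((k : ℂ) - l)) * t) := by
    intro k l t
    rw [← Complex.exp_nat_mul, ← Complex.exp_nat_mul, ← Complex.exp_add]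
    congr 1
    ring
  have hint : ∀ t : ℝ, ev N g (I * r * Complex.exp (I * t)) * ev N g (I * r * Complex.exp (-(I * t)))
      = ∑ k ∈ range (N + 1), ∑ l ∈ range (N + 1),
        ((g k : ℂ) * g l * (I * r) ^ (k + l)) * Complex.exp ((I * ((k : ℂ) - l)) * t) := by
    intro t
    unfold ev
    rw [Finset.sum_mul_sum]
    refine Finset.sum_congr rfl (fun k _ => Finset.sum_congr rfl (fun l _ => ?_))
    rw [← hexp k l t, mul_pow, mul_pow (I * (r : ℂ)) (Complex.exp (-(I * t))), pow_add]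
    ring
  simp_rw [hint]
  have hci : ∀ c : ℂ, Continuous (fun t : ℝ => Complex.exp (c * t)) := by
    intro c; fun_prop
  rw [intervalIntegral.integral_finsetSum]
  swap
  · intro k _
    apply Continuous.intervalIntegrable
    fun_prop
  have h0 : ∀ k ∈ range (N + 1), (∫ t in (0 : ℝ)..(2 * Real.pi), ∑ l ∈ range (N + 1),
        ((g k : ℂ) * g l * (I * r) ^ (k + l)) * Complex.exp ((I * ((k : ℂ) - l)) * t))
      = 2 * Real.pi * (((g k ^ 2 : ℝ) : ℂ) * (-(r : ℂ) ^ 2) ^ k) := by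
    intro k hk
    rw [intervalIntegral.integral_finsetSum]
    swap
    · intro l _
      apply Continuous.intervalIntegrable
      fun_prop
    rw [Finset.sum_eq_single k]
    · rw [intervalIntegral.integral_const_mul]
      have : (fun t : ℝ => Complex.exp ((I * ((k : ℂ) - k)) * t)) = fun _ => 1 := by
        funext t; simp
      rw [this]
      rw [intervalIntegral.integral_const]
      have hI : (I * (r : ℂ)) ^ (k + k) = (-(r : ℂ) ^ 2) ^ k := by
        rw [← two_mul, pow_mul]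
        congr 1
        rw [mul_pow, I_sq]; ring
      rw [hI]
      simp only [sub_zero, Complex.real_smul, mul_one]
      push_cast
      ring
    · intro l _ hl
      rw [intervalIntegral.integral_const_mul]
      have hc : I * ((k : ℂ) - l) ≠ 0 := by
        refine mul_ne_zero I_ne_zero (sub_ne_zero.mpr ?_)
        have hkl : k ≠ l := fun h => hl h.symm
        exact_mod_cast hkl
      rw [integral_exp_mul_complex hc]
      have h2 : Complex.exp (I * ((k : ℂ) - l) * ((2 * Real.pi : ℝ) : ℂ)) = 1 := by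
        rw [Complex.exp_eq_one_iff]
        refine ⟨(k : ℤ) - l, ?_⟩
        push_cast
        ring
      rw [h2]
      simp
    · intro h; exact absurd hk h
  rw [Finset.sum_congr rfl h0, ← Finset.mul_sum]
  unfold ev
  rfl

/-- halving by symmetry -/
lemma halve {f : ℝ → ℝ} (hf : Continuous f) (h1 : ∀ t, f (2 * Real.pi - t) = f t)
    (h2 : ∀ t, f (Real.pi - t) = f t) :
    ∫ t in (0 : ℝ)..(2 * Real.pi), f t = 4 * ∫ t in (0 : ℝ)..(Real.pi / 2), f t := by
  have hi : ∀ a b : ℝ, IntervalIntegrable f volume a b := fun a b => hf.intervalIntegrable a b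
  have e1 : ∫ t in (0 : ℝ)..(2 * Real.pi), f t
      = (∫ t in (0 : ℝ)..Real.pi, f t) + ∫ t in Real.pi..(2 * Real.pi), f t :=
    (intervalIntegral.integral_add_adjacent_intervals (hi _ _) (hi _ _)).symm
  have e2 : ∫ t in Real.pi..(2 * Real.pi), f t = ∫ t in (0 : ℝ)..Real.pi, f t := by
    have := intervalIntegral.integral_comp_sub_left (a := (0 : ℝ)) (b := Real.pi) f (2 * Real.pi)
    rw [show 2 * Real.pi - Real.pi = Real.pi by ring, sub_zero] at this
    rw [← this]
    exact intervalIntegral.integral_congr (fun t _ => h1 t)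
  have e3 : ∫ t in (0 : ℝ)..Real.pi, f t
      = (∫ t in (0 : ℝ)..(Real.pi / 2), f t) + ∫ t in (Real.pi / 2)..Real.pi, f t :=
    (intervalIntegral.integral_add_adjacent_intervals (hi _ _) (hi _ _)).symm
  have e4 : ∫ t in (Real.pi / 2)..Real.pi, f t = ∫ t in (0 : ℝ)..(Real.pi / 2), f t := by
    have := intervalIntegral.integral_comp_sub_left (a := (0 : ℝ)) (b := Real.pi / 2) f Real.pi
    rw [show Real.pi - Real.pi / 2 = Real.pi / 2 by ring, sub_zero] at this
    rw [← this]
    exact intervalIntegral.integral_congr (fun t _ => h2 t)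
  rw [e1, e2, e3, e4]
  ring

/-- the substitution `v = √2 sin (t/2)` -/
lemma subst_v {P : ℂ → ℂ} (hP : Continuous P) :
    ∫ v in (0 : ℝ)..1, P (1 - (v : ℂ) ^ 2) / (2 - (v : ℂ) ^ 2) ^ (1 / 2 : ℂ)
      = (1 / 2 : ℂ) * ∫ t in (0 : ℝ)..(Real.pi / 2), P (Real.cos t : ℂ) := by
  set f : ℝ → ℝ := fun t => Real.sqrt 2 * Real.sin (t / 2) with hf
  set f' : ℝ → ℝ := fun t => Real.sqrt 2 / 2 * Real.cos (t / 2) with hf'
  set g : ℝ → ℂ := fun v => P (1 - (v : ℂ) ^ 2) / (2 - (v : ℂ) ^ 2) ^ (1 / 2 : ℂ) with hg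
  have h2 : Real.sqrt 2 * Real.sqrt 2 = 2 := Real.mul_self_sqrt (by norm_num)
  have hs2 : 0 < Real.sqrt 2 := Real.sqrt_pos.mpr (by norm_num)
  have hder : ∀ t, HasDerivAt f (f' t) t := by
    intro t
    have h := ((Real.hasDerivAt_sin (t / 2)).comp t ((hasDerivAt_id t).div_const 2)).const_mul
      (Real.sqrt 2)
    exact h.congr_deriv (by simp only [hf']; ring)
  have hf0 : f 0 = 0 := by simp [hf]
  have hf1 : f (Real.pi / 2) = 1 := by
    simp only [hf]
    rw [show Real.pi / 2 / 2 = Real.pi / 4 by ring, Real.sin_pi_div_four]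
    nlinarith [h2]
  have hpi := Real.pi_pos
  have hmaps : ∀ v ∈ f '' (Set.uIcc 0 (Real.pi / 2)), 0 < 2 - v ^ 2 := by
    rintro v ⟨t, ht, rfl⟩
    rw [Set.uIcc_of_le (by positivity)] at ht
    have hc : 0 < Real.cos (t / 2) := Real.cos_pos_of_mem_Ioo ⟨by linarith [ht.1], by linarith [ht.2]⟩
    have : 2 - (Real.sqrt 2 * Real.sin (t / 2)) ^ 2 = 2 * Real.cos (t / 2) ^ 2 := by
      have := Real.sin_sq_add_cos_sq (t / 2)
      nlinarith [h2]
    show 0 < 2 - (Real.sqrt 2 * Real.sin (t / 2)) ^ 2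
    rw [this]; positivity
  have hgc : ContinuousOn g (f '' (Set.uIcc 0 (Real.pi / 2))) := by
    intro v hv
    have hv0 := hmaps v hv
    have hcast : (2 - (v : ℂ) ^ 2) = (((2 - v ^ 2 : ℝ)) : ℂ) := by push_cast; ring
    have hsl : (2 - (v : ℂ) ^ 2) ∈ slitPlane := by
      rw [hcast]; exact Or.inl (by rw [Complex.ofReal_re]; exact hv0)
    have hne : (2 - (v : ℂ) ^ 2) ^ (1 / 2 : ℂ) ≠ 0 := by
      rw [Ne, Complex.cpow_eq_zero_iff]
      rintro ⟨h, _⟩
      exact slitPlane_ne_zero hsl h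
    apply ContinuousAt.continuousWithinAt
    have c1 : ContinuousAt (fun v : ℝ => P (1 - (v : ℂ) ^ 2)) v :=
      (hP.comp (by fun_prop : Continuous (fun v : ℝ => (1 - (v : ℂ) ^ 2)))).continuousAt
    have c2 : ContinuousAt (fun v : ℝ => (2 - (v : ℂ) ^ 2) ^ (1 / 2 : ℂ)) v :=
      (by fun_prop : Continuous (fun v : ℝ => (2 - (v : ℂ) ^ 2))).continuousAt.cpow
        continuousAt_const hsl
    exact c1.div c2 hne
  have key := intervalIntegral.integral_deriv_smul_comp'' (a := (0 : ℝ)) (b := Real.pi / 2)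
    (f := f) (f' := f') (g := g)
    (fun t _ => (hder t).continuousAt.continuousWithinAt)
    (fun t _ => (hder t).hasDerivWithinAt)
    (by apply Continuous.continuousOn; simp only [hf']; fun_prop) hgc
  rw [hf0, hf1] at key
  rw [← key, ← intervalIntegral.integral_const_mul]
  refine intervalIntegral.integral_congr (fun t ht => ?_)
  rw [Set.uIcc_of_le (by positivity)] at ht
  have hc : 0 < Real.cos (t / 2) := Real.cos_pos_of_mem_Ioo ⟨by linarith [ht.1], by linarith [ht.2]⟩
  have hsc := Real.sin_sq_add_cos_sq (t / 2)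
  have e1 : (1 - ((f t : ℝ) : ℂ) ^ 2) = (Real.cos t : ℂ) := by
    have : 1 - (f t) ^ 2 = Real.cos t := by
      have hcos : Real.cos t = 2 * Real.cos (t / 2) ^ 2 - 1 := by
        rw [← Real.cos_two_mul]; congr 1; ring
      simp only [hf]
      rw [hcos]
      nlinarith [h2]
    exact_mod_cast this
  have e2 : (2 - ((f t : ℝ) : ℂ) ^ 2) ^ (1 / 2 : ℂ) = ((Real.sqrt 2 * Real.cos (t / 2) : ℝ) : ℂ) := by
    have h3 : 2 - (f t) ^ 2 = (Real.sqrt 2 * Real.cos (t / 2)) ^ 2 := by
      simp only [hf]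
      nlinarith [h2]
    have h4 : (2 - ((f t : ℝ) : ℂ) ^ 2) = (((Real.sqrt 2 * Real.cos (t / 2)) ^ 2 : ℝ) : ℂ) := by
      rw [← h3]; push_cast; ring
    have hpos : 0 < Real.sqrt 2 * Real.cos (t / 2) := by positivity
    rw [h4, show (1 / 2 : ℂ) = ((1 / 2 : ℝ) : ℂ) by push_cast; ring,
      ← Complex.ofReal_cpow (by positivity), ← Real.sqrt_eq_rpow, Real.sqrt_sq hpos.le]
  show f' t • g (f t) = 1 / 2 * P (Real.cos t : ℂ)
  simp only [hg]
  rw [e1, e2]
  simp only [hf']
  have hc' : Complex.cos ((t : ℂ) / 2) ≠ 0 := by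
    have h5 : ((Real.cos (t / 2) : ℝ) : ℂ) ≠ 0 := by exact_mod_cast hc.ne'
    rw [Complex.ofReal_cos] at h5
    push_cast at h5
    exact h5
  have hs' : (Real.sqrt 2 : ℂ) ≠ 0 := by exact_mod_cast hs2.ne'
  rw [Complex.real_smul]
  push_cast
  field_simp

theorem formula {N : ℕ} {g : ℕ → ℝ} {w : Fin N → ℂ}
    (hw : ∀ z : ℂ, ev N g z = (g 0 : ℂ) * ∏ j, (1 + w j * z)) (hcc : CC w) {r : ℝ} (hr : 0 < r) :
    (ev N (fun k => g k ^ 2) (-(r : ℂ) ^ 2)).re
      = 2 / Real.pi * g 0 ^ 2 * (HH (fun j => (r : ℂ) * w j) 1).re := by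
  set y : Fin N → ℂ := fun j => (r : ℂ) * w j with hy
  have hccy : CC y := hcc.smul r
  have hpi := Real.pi_pos
  have hcont : Continuous (fun t : ℝ => PP y (Real.cos t : ℂ)) :=
    (PP_continuous y).comp (by fun_prop)
  -- orthogonality
  have h1 : 2 * Real.pi * ev N (fun k => g k ^ 2) (-(r : ℂ) ^ 2)
      = (g 0 : ℂ) ^ 2 * ∫ t in (0 : ℝ)..(2 * Real.pi), PP y (Real.cos t : ℂ) := by
    rw [← orth r g, ← intervalIntegral.integral_const_mul]
    exact intervalIntegral.integral_congr (fun t _ => (PP_cos hw r t).symm)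
  have hre : ∀ a b : ℝ, (∫ t in a..b, PP y (Real.cos t : ℂ)).re
      = ∫ t in a..b, (PP y (Real.cos t : ℂ)).re := by
    intro a b
    have := Complex.reCLM.intervalIntegral_comp_comm (hcont.intervalIntegrable (μ := volume) a b)
    simpa using this.symm
  have h2 : 2 * Real.pi * (ev N (fun k => g k ^ 2) (-(r : ℂ) ^ 2)).re
      = g 0 ^ 2 * ∫ t in (0 : ℝ)..(2 * Real.pi), (PP y (Real.cos t : ℂ)).re := by
    have := congrArg Complex.re h1
    rw [show (2 * (Real.pi : ℂ)) = ((2 * Real.pi : ℝ) : ℂ) by push_cast; ring,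
      show ((g 0 : ℂ) ^ 2) = ((g 0 ^ 2 : ℝ) : ℂ) by push_cast; ring,
      Complex.re_ofReal_mul, Complex.re_ofReal_mul, hre] at this
    exact this
  have h3 := halve (f := fun t => (PP y (Real.cos t : ℂ)).re)
    (Complex.continuous_re.comp hcont)
    (fun t => by simp only [Real.cos_two_pi_sub])
    (fun t => by
      simp only [Real.cos_pi_sub]
      rw [Complex.ofReal_neg, PP_neg_conj hccy, Complex.conj_re])
  rw [h3] at h2
  have h4 : (HH y 1).re = ∫ t in (0 : ℝ)..(Real.pi / 2), (PP y (Real.cos t : ℂ)).re := by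
    unfold HH
    simp only [mul_one, Complex.one_cpow]
    rw [subst_v (PP_continuous y), ← hre]
    congr 1
    ring
  rw [h4]
  field_simp
  linarith [h2]

end Pool.Agent.RFS
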