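import Pool.Agent.RFS.Alg

/-!
# The phase of the product
-/

namespace Pool.Agent.RFS

open Complex Set Filter Topology
open scoped Real

variable {N : ℕ}

theorem re_pos_of_arg {z : ℂ} (hz : z ≠ 0) (h : |arg z| ≤ π / 8) : 0 < z.re := by
  have h1 : |arg z| < π / 2 := lt_of_le_of_lt h (by linarith [Real.pi_pos])
  exact (abs_arg_lt_pi_div_two_iff.1 h1).resolve_right hz

theorem slit_of_re_pos {y : ℂ} (h : 0 < y.re) : 1 + I * y ∈ slitPlane := by
  rw [mem_slitPlane_iff]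
  right
  have : (1 + I * y).im = y.re := by simp
  rw [this]
  exact h.ne'

theorem slit_mul {w : ℂ} (hw : 0 < w.re) {r : ℝ} (hr : 0 ≤ r) : 1 + I * ((r : ℂ) * w) ∈ slitPlane := by
  rcases hr.eq_or_lt with h | h
  · rw [← h]
    simp
  · apply slit_of_re_pos
    rw [re_ofReal_mul]
    positivity

theorem continuousAt_Th {w : Fin N → ℂ} {r : ℝ} (h : ∀ j, 1 + I * ((r : ℂ) * w j) ∈ slitPlane) :
    ContinuousAt (Th w) r := by
  unfold Th
  refine continuousAt_const.mul (tendsto_finsetSum _ fun j _ => ?_)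
  have h1 : ContinuousAt arg (1 + I * ((r : ℂ) * w j)) := continuousAt_arg (h j)
  have h2 : ContinuousAt (fun r : ℝ => 1 + I * ((r : ℂ) * w j)) r := by fun_prop
  exact ContinuousAt.comp (f := fun r : ℝ => 1 + I * ((r : ℂ) * w j)) (g := arg) h1 h2

theorem Th_zero (w : Fin N → ℂ) : Th w 0 = 0 := by
  simp [Th]

theorem abs_arctan_lt (x : ℝ) : |3 / 4 * Real.arctan x| < 3 * π / 8 := by
  rw [abs_lt]
  constructor
  · linarith [Real.neg_pi_div_two_lt_arctan x]
  · linarith [Real.arctan_lt_pi_div_two x]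

/-- near `0` the phase `Ψ` is less than `π` -/
theorem Psi_small {N : ℕ} {w : Fin N → ℂ} : ∀ᶠ r in 𝓝[>] (0 : ℝ), Psi w r < Real.pi := by
  have h1 : Tendsto (Th w) (𝓝 0) (𝓝 0) := by
    have h2 : ContinuousAt (Th w) 0 := continuousAt_Th fun j => by simp
    have h3 := h2.tendsto
    rwa [Th_zero] at h3
  have h3 : ∀ᶠ r in 𝓝[>] (0 : ℝ), Th w r < 5 * π / 8 :=
    (h1.eventually_lt_const (by linarith [Real.pi_pos])).filter_mono nhdsWithin_le_nhds
  filter_upwards [h3] with a ha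
  have h4 := (abs_lt.1 (abs_arctan_lt (eta (fun j => (a : ℂ) * w j)))).1
  unfold Psi
  linarith

/-- scaling of the argument -/
theorem arg_scale (w : ℂ) {r : ℝ} (hr : 0 < r) :
    arg (1 + I * ((r : ℂ) * w)) = arg ((((r : ℝ)⁻¹ : ℝ) : ℂ) + I * w) := by
  have h1 : 1 + I * ((r : ℂ) * w) = (r : ℂ) * ((((r : ℝ)⁻¹ : ℝ) : ℂ) + I * w) := by
    have h2 : (r : ℂ) ≠ 0 := by exact_mod_cast hr.ne'
    push_cast
    rw [mul_add, mul_inv_cancel₀ h2]
    ring
  rw [h1, arg_real_mul _ hr]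

theorem tendsto_Th {w : Fin N → ℂ} (hw : ∀ j, 0 < (w j).re) (hsum : ∑ j, arg (w j) = 0) :
    Tendsto (Th w) atTop (𝓝 (N * π)) := by
  have h1 : ∀ j : Fin N, Tendsto (fun r : ℝ => arg (1 + I * ((r : ℂ) * w j))) atTop (𝓝 (π / 2 + arg (w j))) := by
    intro j
    have h2 : Tendsto (fun r : ℝ => (((r : ℝ)⁻¹ : ℝ) : ℂ) + I * w j) atTop (𝓝 (I * w j)) := by
      have h3 : Tendsto (fun r : ℝ => (r⁻¹ : ℝ)) atTop (𝓝 0) := tendsto_inv_atTop_zero
      have h4 : Tendsto (fun r : ℝ => (((r : ℝ)⁻¹ : ℝ) : ℂ)) atTop (𝓝 0) := by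
        have := (continuous_ofReal.tendsto (0 : ℝ)).comp h3
        rw [ofReal_zero] at this
        exact this
      simpa using h4.add_const (I * w j)
    have h5 : I * w j ∈ slitPlane := by
      rw [mem_slitPlane_iff]
      right
      simp [(hw j).ne']
    have h6 : Tendsto (fun r : ℝ => arg ((((r : ℝ)⁻¹ : ℝ) : ℂ) + I * w j)) atTop (𝓝 (arg (I * w j))) :=
      (continuousAt_arg h5).tendsto.comp h2
    have h7 : arg (I * w j) = π / 2 + arg (w j) := by
      have hw0 : w j ≠ 0 := by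
        intro h
        have := hw j
        simp [h] at this
      have h8 : |arg (w j)| < π / 2 := abs_arg_lt_pi_div_two_iff.2 (Or.inl (hw j))
      rw [abs_lt] at h8
      rw [arg_mul I_ne_zero hw0]
      · rw [arg_I]
      · rw [arg_I]
        constructor <;> linarith [h8.1, h8.2, Real.pi_pos]
    rw [h7] at h6
    refine h6.congr' ?_
    filter_upwards [eventually_gt_atTop 0] with r hr
    exact (arg_scale (w j) hr).symm
  have h2 : Tendsto (fun r : ℝ => 2 * ∑ j, arg (1 + I * ((r : ℂ) * w j))) atTop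
      (𝓝 (2 * ∑ j : Fin N, (π / 2 + arg (w j)))) :=
    (tendsto_finsetSum _ fun j _ => h1 j).const_mul 2
  have h3 : 2 * ∑ j : Fin N, (π / 2 + arg (w j)) = N * π := by
    rw [Finset.sum_add_distrib, hsum, Finset.sum_const, Finset.card_univ, Fintype.card_fin, nsmul_eq_mul]
    ring
  rw [h3] at h2
  exact h2

/-- the sum of the arguments vanishes -/
theorem sum_arg {w : Fin N → ℂ} (hcc : CC w) (hw : ∀ j, 0 < (w j).re) : ∑ j, arg (w j) = 0 := by
  have h1 := hcc.sum_comp (fun z => arg z)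
  have h2 : ∑ j, arg ((starRingEnd ℂ) (w j)) = - ∑ j, arg (w j) := by
    rw [← Finset.sum_neg_distrib]
    refine Finset.sum_congr rfl fun j _ => ?_
    rw [arg_conj, if_neg]
    intro h
    have h8 : |arg (w j)| < π / 2 := abs_arg_lt_pi_div_two_iff.2 (Or.inl (hw j))
    rw [h, abs_of_pos Real.pi_pos] at h8
    linarith [Real.pi_pos]
  rw [h2] at h1
  linarith

/-- near `∞` the phase `Ψ` is larger than `(N-1) π` -/
theorem Psi_large {N : ℕ} {w : Fin N → ℂ} (hcc : CC w) (hne : ∀ j, w j ≠ 0)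
    (harg : ∀ j, |(w j).arg| ≤ Real.pi / 8) :
    ∀ᶠ r in atTop, ((N : ℝ) - 1) * Real.pi < Psi w r := by
  have hw : ∀ j, 0 < (w j).re := fun j => re_pos_of_arg (hne j) (harg j)
  have h1 : ∀ᶠ r in atTop, N * π - π / 8 < Th w r :=
    (tendsto_Th hw (sum_arg hcc hw)).eventually_const_lt (by linarith [Real.pi_pos])
  filter_upwards [h1] with r hr
  have h4 := (abs_lt.1 (abs_arctan_lt (eta (fun j => (r : ℂ) * w j)))).2
  unfold Psi
  linarith [Real.pi_pos]

/-- the argument does not change under scaling -/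
theorem arg_mul_le {w : ℂ} {r : ℝ} (hr : 0 < r) (h : |arg w| ≤ π / 8) : |arg ((r : ℂ) * w)| ≤ π / 8 := by
  rwa [arg_real_mul _ hr]

theorem Psi_cont {N : ℕ} (hN : 0 < N) {w : Fin N → ℂ} (hcc : CC w) (hne : ∀ j, w j ≠ 0)
    (harg : ∀ j, |(w j).arg| ≤ Real.pi / 8) : ContinuousOn (Psi w) (Set.Ioi 0) := by
  have hw : ∀ j, 0 < (w j).re := fun j => re_pos_of_arg (hne j) (harg j)
  have hζ : ∀ r : ℝ, 0 < r → 0 < (zeta (fun j => (r : ℂ) * w j)).re := by
    intro r hr
    have hr' : (r : ℂ) ≠ 0 := by exact_mod_cast hr.ne'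
    exact zeta_re_pos hN (hcc.smul r) (fun j => mul_ne_zero hr' (hne j)) (fun j => arg_mul_le hr (harg j))
  have h1 : ContinuousOn (fun r : ℝ => zeta (fun j => (r : ℂ) * w j)) (Ioi 0) := by
    unfold zeta aa
    refine continuousOn_finsetSum _ fun j _ => ?_
    refine ContinuousOn.div (by fun_prop) (by fun_prop) ?_
    intro r hr
    exact pow_ne_zero _ (slitPlane_ne_zero (slit_mul (hw j) (le_of_lt hr)))
  have h2 : ContinuousOn (fun r : ℝ => eta (fun j => (r : ℂ) * w j)) (Ioi 0) := by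
    unfold eta
    exact (continuous_im.comp_continuousOn h1).div (continuous_re.comp_continuousOn h1)
      fun r hr => (hζ r hr).ne'
  have h3 : ContinuousOn (Th w) (Ioi 0) := fun r hr =>
    (continuousAt_Th fun j => slit_mul (hw j) (le_of_lt hr)).continuousWithinAt
  unfold Psi
  exact h3.sub (continuousOn_const.mul (Real.continuous_arctan.comp_continuousOn h2))

/-- polar form of the product -/
theorem prod_polar (w : Fin N → ℂ) (r : ℝ) :
    ∏ j, (1 + I * ((r : ℂ) * w j)) ^ 2 =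
      ((∏ j, ‖1 + I * ((r : ℂ) * w j)‖ ^ 2 : ℝ) : ℂ) * exp ((Th w r : ℝ) * I) := by
  have h1 : ∀ j, (1 + I * ((r : ℂ) * w j)) ^ 2 =
      ((‖1 + I * ((r : ℂ) * w j)‖ ^ 2 : ℝ) : ℂ) * exp ((2 * arg (1 + I * ((r : ℂ) * w j)) : ℝ) * I) := by
    intro j
    conv_lhs => rw [← norm_mul_exp_arg_mul_I (1 + I * ((r : ℂ) * w j))]
    rw [mul_pow, ← exp_nat_mul]
    push_cast
    ring_nf
  rw [Finset.prod_congr rfl fun j _ => h1 j, Finset.prod_mul_distrib, ← exp_sum]
  congr 1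
  · push_cast
    rfl
  · congr 1
    unfold Th
    rw [← Finset.sum_mul, Finset.mul_sum]
    push_cast
    rfl

/-- polar form of the root of `1 - i η` -/
theorem sqrt_polar (η : ℝ) : ((1 : ℂ) - I * η) ^ (1 / 2 : ℂ) =
    ((Real.sqrt (Real.sqrt (1 + η ^ 2)) : ℝ) : ℂ) * exp ((-(1 / 2) * Real.arctan η : ℝ) * I) := by
  have hne : (1 : ℂ) - I * η ≠ 0 := by
    intro h
    have := congrArg Complex.re h
    simp at this
  have hnorm : ‖(1 : ℂ) - I * η‖ = Real.sqrt (1 + η ^ 2) := by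
    rw [Complex.norm_def, normSq_apply]
    simp
    ring_nf
  have harg : arg ((1 : ℂ) - I * η) = - Real.arctan η := by
    rw [arg_of_re_nonneg (by simp), hnorm, Real.arctan_eq_arcsin]
    simp [neg_div, Real.arcsin_neg]
  have hpos : 0 < Real.sqrt (1 + η ^ 2) := Real.sqrt_pos.2 (by positivity)
  rw [cpow_def_of_ne_zero hne]
  have hlog : log ((1 : ℂ) - I * η) = (Real.log (Real.sqrt (1 + η ^ 2)) : ℝ) + (-Real.arctan η : ℝ) * I := by
    rw [log, hnorm, harg]
  rw [hlog, add_mul, exp_add]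
  congr 1
  · rw [show ((Real.log (Real.sqrt (1 + η ^ 2)) : ℝ) : ℂ) * (1 / 2 : ℂ) =
      ((Real.log (Real.sqrt (1 + η ^ 2)) * (1 / 2) : ℝ) : ℂ) by push_cast; ring, ← ofReal_exp]
    congr 1
    rw [Real.sqrt_eq_rpow (Real.sqrt (1 + η ^ 2)), Real.rpow_def_of_pos hpos]
  · congr 1
    push_cast
    ring

end Pool.Agent.RFS
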