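import Pool.Agent.RFS.Defs

/-!
# RFS: the shift of the contour (module M2b)
-/

open Finset Complex MeasureTheory

namespace Pool.Agent.RFS

theorem PP_im {N : ℕ} {y : Fin N → ℂ} (hcc : CC y) (η : ℝ) : (PP y (I * (η : ℂ))).im = 0 := by
  have h1 : PP y (I * (η : ℂ)) = ∏ j, (1 - y j ^ 2 - 2 * (η : ℂ) * y j) := by
    unfold PP
    refine Finset.prod_congr rfl fun j _ => ?_
    have : I * I = -1 := I_mul_I
    linear_combination (2 * y j * (η : ℂ)) * this
  have h2 : (starRingEnd ℂ) (PP y (I * (η : ℂ))) = PP y (I * (η : ℂ)) := by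
    rw [h1, map_prod]
    rw [← hcc.prod_comp (fun z : ℂ => 1 - z ^ 2 - 2 * (η : ℂ) * z)]
    refine Finset.prod_congr rfl fun j _ => ?_
    simp only [map_sub, map_mul, map_pow, map_one, conj_ofReal, map_ofNat]
  exact conj_eq_iff_im.mp h2

/-- the half plane -/
private def UU : Set ℂ := {s | s.re < 2}

private lemma UU_open : IsOpen UU := isOpen_lt continuous_re continuous_const

private lemma mem_UU {b : ℂ} (hb : b.re < 2) {v : ℝ} (h0 : 0 ≤ v) (h1 : v ≤ 1) :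
    (v : ℂ) ^ 2 * b ∈ UU := by
  have h2 : ((v : ℂ) ^ 2 * b).re = v ^ 2 * b.re := by
    rw [← ofReal_pow, re_ofReal_mul]
  have h3 : v ^ 2 ≤ 1 := pow_le_one₀ h0 h1
  have h4 : 0 ≤ v ^ 2 := sq_nonneg v
  show ((v : ℂ) ^ 2 * b).re < 2
  rw [h2]
  rcases le_or_gt b.re 0 with h | h
  · nlinarith
  · nlinarith

private lemma G_deriv {k : ℂ → ℂ} (hk : DifferentiableOn ℂ k UU) {b : ℂ} (hb : b.re < 2) :
    HasDerivAt (fun z : ℂ => ∫ v in (0 : ℝ)..1, k ((v : ℂ) ^ 2 * z))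
      (∫ v in (0 : ℝ)..1, (v : ℂ) ^ 2 * deriv k ((v : ℂ) ^ 2 * b)) b := by
  have hdc : ContinuousOn (deriv k) UU := (hk.deriv UU_open).continuousOn
  have hkc : ContinuousOn k UU := hk.continuousOn
  set ε : ℝ := (2 - b.re) / 2 with hε
  have hεp : 0 < ε := by rw [hε]; linarith
  have hball : ∀ z ∈ Metric.closedBall b ε, z.re < 2 := by
    intro z hz
    have h1 : ‖z - b‖ ≤ ε := by simpa [dist_eq_norm] using hz
    have h2 : |(z - b).re| ≤ ‖z - b‖ := abs_re_le_norm _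
    have h3 := (abs_le.mp (h2.trans h1)).2
    rw [sub_re] at h3
    rw [hε] at h3
    linarith
  have hK : IsCompact (Metric.closedBall b ε ×ˢ Set.Icc (0 : ℝ) 1) :=
    (isCompact_closedBall b ε).prod isCompact_Icc
  have hcont : ContinuousOn (fun p : ℂ × ℝ => (p.2 : ℂ) ^ 2 * deriv k ((p.2 : ℂ) ^ 2 * p.1))
      (Metric.closedBall b ε ×ˢ Set.Icc (0 : ℝ) 1) := by
    refine ContinuousOn.mul (by fun_prop) (hdc.comp (by fun_prop) ?_)
    rintro ⟨z, v⟩ ⟨hz, hv⟩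
    exact mem_UU (hball z hz) hv.1 hv.2
  obtain ⟨C, hC⟩ := hK.exists_bound_of_continuousOn hcont
  have hc1 : ∀ z ∈ Metric.closedBall b ε,
      ContinuousOn (fun v : ℝ => k ((v : ℂ) ^ 2 * z)) (Set.Icc (0 : ℝ) 1) := by
    intro z hz
    refine hkc.comp (by fun_prop) ?_
    intro v hv
    exact mem_UU (hball z hz) hv.1 hv.2
  have hc2 : ContinuousOn (fun v : ℝ => (v : ℂ) ^ 2 * deriv k ((v : ℂ) ^ 2 * b))
      (Set.Icc (0 : ℝ) 1) := by
    refine ContinuousOn.mul (by fun_prop) (hdc.comp (by fun_prop) ?_)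
    intro v hv
    exact mem_UU hb hv.1 hv.2
  have hIoc : Set.uIoc (0 : ℝ) 1 = Set.Ioc 0 1 := Set.uIoc_of_le zero_le_one
  have hb0 : b ∈ Metric.closedBall b ε := Metric.mem_closedBall_self hεp.le
  refine (intervalIntegral.hasDerivAt_integral_of_dominated_loc_of_deriv_le
    (bound := fun _ => C) (F := fun z (v : ℝ) => k ((v : ℂ) ^ 2 * z))
    (F' := fun z (v : ℝ) => (v : ℂ) ^ 2 * deriv k ((v : ℂ) ^ 2 * z))
    (s := Metric.closedBall b ε)
    (Metric.closedBall_mem_nhds b hεp) ?_ ?_ ?_ ?_ ?_ ?_).2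
  · filter_upwards [Metric.closedBall_mem_nhds b hεp] with z hz
    rw [hIoc]
    exact ((hc1 z hz).mono Set.Ioc_subset_Icc_self).aestronglyMeasurable measurableSet_Ioc
  · exact (by simpa [Set.uIcc_of_le zero_le_one] using hc1 b hb0 :
      ContinuousOn (fun v : ℝ => k ((v : ℂ) ^ 2 * b)) (Set.uIcc 0 1)).intervalIntegrable
  · rw [hIoc]
    exact (hc2.mono Set.Ioc_subset_Icc_self).aestronglyMeasurable measurableSet_Ioc
  · refine Filter.Eventually.of_forall fun v hv z hz => ?_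
    rw [hIoc] at hv
    exact hC (z, v) ⟨hz, Set.Ioc_subset_Icc_self hv⟩
  · exact intervalIntegrable_const
  · refine Filter.Eventually.of_forall fun v hv z hz => ?_
    rw [hIoc] at hv
    have hm := mem_UU (hball z hz) hv.1.le hv.2
    have h1 : HasDerivAt k (deriv k ((v : ℂ) ^ 2 * z)) ((v : ℂ) ^ 2 * z) :=
      ((hk _ hm).differentiableAt (UU_open.mem_nhds hm)).hasDerivAt
    have h2 : HasDerivAt (fun z : ℂ => (v : ℂ) ^ 2 * z) ((v : ℂ) ^ 2) z := by
      simpa using (hasDerivAt_id z).const_mul ((v : ℂ) ^ 2)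
    have h3 := h1.comp z h2
    rw [mul_comm] at h3
    exact h3

private lemma G_ftc {k : ℂ → ℂ} (hk : DifferentiableOn ℂ k UU) {b : ℂ} (hb : b.re < 2) :
    (∫ v in (0 : ℝ)..1, k ((v : ℂ) ^ 2 * b))
      + 2 * b * (∫ v in (0 : ℝ)..1, (v : ℂ) ^ 2 * deriv k ((v : ℂ) ^ 2 * b)) = k b := by
  have hdc : ContinuousOn (deriv k) UU := (hk.deriv UU_open).continuousOn
  have hkc : ContinuousOn k UU := hk.continuousOn
  have hc1 : ContinuousOn (fun v : ℝ => k ((v : ℂ) ^ 2 * b)) (Set.uIcc (0 : ℝ) 1) := by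
    rw [Set.uIcc_of_le zero_le_one]
    refine hkc.comp (by fun_prop) ?_
    intro v hv
    exact mem_UU hb hv.1 hv.2
  have hc2 : ContinuousOn (fun v : ℝ => (v : ℂ) ^ 2 * deriv k ((v : ℂ) ^ 2 * b))
      (Set.uIcc (0 : ℝ) 1) := by
    rw [Set.uIcc_of_le zero_le_one]
    refine ContinuousOn.mul (by fun_prop) (hdc.comp (by fun_prop) ?_)
    intro v hv
    exact mem_UU hb hv.1 hv.2
  have hd : ∀ v ∈ Set.uIcc (0 : ℝ) 1, HasDerivAt (fun v : ℝ => (v : ℂ) * k ((v : ℂ) ^ 2 * b))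
      (k ((v : ℂ) ^ 2 * b) + 2 * b * ((v : ℂ) ^ 2 * deriv k ((v : ℂ) ^ 2 * b))) v := by
    intro v hv
    rw [Set.uIcc_of_le zero_le_one] at hv
    have hm := mem_UU hb hv.1 hv.2
    have h1 : HasDerivAt k (deriv k ((v : ℂ) ^ 2 * b)) ((v : ℂ) ^ 2 * b) :=
      ((hk _ hm).differentiableAt (UU_open.mem_nhds hm)).hasDerivAt
    have h0 : HasDerivAt (fun v : ℝ => (v : ℂ)) 1 v := by
      simpa using (hasDerivAt_id v).ofReal_comp
    have h2 : HasDerivAt (fun v : ℝ => (v : ℂ) ^ 2 * b) (2 * (v : ℂ) * b) v := by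
      have := (h0.pow 2).mul_const b
      simpa using this
    have h3 := h1.comp v h2
    have h4 := h0.mul h3
    refine h4.congr_deriv ?_
    simp only [Function.comp]
    ring
  have hi : IntervalIntegrable
      (fun v : ℝ => k ((v : ℂ) ^ 2 * b) + 2 * b * ((v : ℂ) ^ 2 * deriv k ((v : ℂ) ^ 2 * b)))
      volume 0 1 :=
    hc1.intervalIntegrable.add (hc2.intervalIntegrable.const_mul (2 * b))
  have h := intervalIntegral.integral_eq_sub_of_hasDerivAt hd hi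
  rw [intervalIntegral.integral_add hc1.intervalIntegrable
    (hc2.intervalIntegrable.const_mul (2 * b)), intervalIntegral.integral_const_mul] at h
  rw [h]
  simp

/-- the kernel of the integral `HH` -/
private noncomputable def kk {N : ℕ} (y : Fin N → ℂ) (s : ℂ) : ℂ :=
  PP y (1 - s) / (2 - s) ^ (1 / 2 : ℂ)

private lemma kk_diff {N : ℕ} (y : Fin N → ℂ) : DifferentiableOn ℂ (kk y) UU := by
  intro s hs
  have hre : 0 < (2 - s).re := by
    have : s.re < 2 := hs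
    simp only [sub_re, re_ofNat]
    linarith
  have hsl : (2 - s) ∈ slitPlane := Or.inl hre
  have hne : (2 - s) ≠ 0 := fun h => by rw [h] at hre; simp at hre
  have h1 : DifferentiableAt ℂ (fun s : ℂ => PP y (1 - s)) s := by
    unfold PP
    fun_prop
  have h2 : DifferentiableAt ℂ (fun s : ℂ => (2 - s) ^ (1 / 2 : ℂ)) s := by
    have h3 : DifferentiableAt ℂ (fun s : ℂ => 2 - s) s := by fun_prop
    exact h3.cpow_const hsl
  have h4 : (2 - s) ^ (1 / 2 : ℂ) ≠ 0 := by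
    rw [Ne, cpow_eq_zero_iff]
    exact fun h => hne h.1
  exact (h1.div h2 h4).differentiableWithinAt

theorem HH_hasDerivAt {N : ℕ} (y : Fin N → ℂ) {b : ℂ} (h0 : 0 < b.re) (h2 : b.re < 2) :
    HasDerivAt (HH y) (PP y (1 - b) / (2 - b) ^ (1 / 2 : ℂ) / b ^ (1 / 2 : ℂ)) b := by
  have hG := G_deriv (kk_diff y) h2
  have hF := G_ftc (kk_diff y) h2
  have hbne : b ≠ 0 := fun h => by rw [h] at h0; simp at h0
  have hs : HasDerivAt (fun z : ℂ => 2 * z ^ (1 / 2 : ℂ)) (2 * ((1 / 2) * b ^ ((1 / 2 : ℂ) - 1))) b := by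
    have h3 := (hasDerivAt_id b).cpow_const (c := (1 / 2 : ℂ)) (Or.inl h0)
    have h4 := h3.const_mul 2
    simpa using h4
  have h5 := hs.mul hG
  have h6 : b ^ ((1 / 2 : ℂ) - 1) = (b ^ (1 / 2 : ℂ))⁻¹ := by
    rw [← cpow_neg]
    norm_num
  have h7 : b ^ (1 / 2 : ℂ) ≠ 0 := by
    rw [Ne, cpow_eq_zero_iff]
    exact fun h => hbne h.1
  have h8 : b ^ (1 / 2 : ℂ) * b ^ (1 / 2 : ℂ) = b := by
    rw [← cpow_add _ _ hbne]
    norm_num
  have h9 : HH y = fun z : ℂ => 2 * z ^ (1 / 2 : ℂ) * ∫ v in (0 : ℝ)..1, kk y ((v : ℂ) ^ 2 * z) := rfl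
  rw [h9]
  refine h5.congr_deriv ?_
  have h10 : kk y b = PP y (1 - b) / (2 - b) ^ (1 / 2 : ℂ) := rfl
  rw [← h10, ← hF, h6]
  generalize (∫ v in (0 : ℝ)..1, kk y ((v : ℂ) ^ 2 * b)) = A
  generalize (∫ v in (0 : ℝ)..1, (v : ℂ) ^ 2 * deriv (kk y) ((v : ℂ) ^ 2 * b)) = B
  generalize b ^ (1 / 2 : ℂ) = c at h7 h8
  field_simp
  linear_combination (2 * B) * h8

theorem shift {N : ℕ} {y : Fin N → ℂ} (hcc : CC y) (η : ℝ) :
    (HH y (1 - I * (η : ℂ))).re = (HH y 1).re := by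
  have hd : ∀ t : ℝ, HasDerivAt (fun t : ℝ => (HH y (1 - I * (t : ℂ))).re) 0 t := by
    intro t
    have hre : (1 - I * (t : ℂ)).re = 1 := by simp
    have h1 := HH_hasDerivAt y (b := 1 - I * (t : ℂ)) (by rw [hre]; norm_num)
      (by rw [hre]; norm_num)
    have h0 : HasDerivAt (fun v : ℝ => (v : ℂ)) 1 t := by
      simpa using (hasDerivAt_id t).ofReal_comp
    have h2 : HasDerivAt (fun t : ℝ => 1 - I * (t : ℂ)) (-I) t := by
      simpa using (h0.const_mul I).const_sub 1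
    have h3 := h1.comp t h2
    have h4 := Complex.reCLM.hasFDerivAt.comp_hasDerivAt t h3
    refine h4.congr_deriv ?_
    have hb1 : 1 - (1 - I * (t : ℂ)) = I * (t : ℂ) := by ring
    have hb2 : 2 - (1 - I * (t : ℂ)) = (starRingEnd ℂ) (1 - I * (t : ℂ)) := by
      simp only [map_sub, map_mul, map_one, conj_ofReal, conj_I]
      ring
    have harg : (1 - I * (t : ℂ)).arg ≠ Real.pi := by
      intro h
      have := (arg_eq_pi_iff.mp h).1
      rw [hre] at this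
      linarith
    have hcj : ((starRingEnd ℂ) (1 - I * (t : ℂ))) ^ (1 / 2 : ℂ)
        = (starRingEnd ℂ) ((1 - I * (t : ℂ)) ^ (1 / 2 : ℂ)) := by
      have h5 := conj_cpow (1 - I * (t : ℂ)) (1 / 2) harg
      rw [h5]
      congr 2
      rw [map_div₀, map_one, map_ofNat]
    rw [hb1, hb2, hcj]
    have hP := PP_im hcc t
    have hP2 : PP y (I * (t : ℂ)) = (((PP y (I * (t : ℂ))).re : ℝ) : ℂ) := by
      apply Complex.ext
      · simp
      · rw [hP]; simp
    rw [hP2, div_div, mul_comm ((starRingEnd ℂ) _), mul_conj, ← ofReal_div]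
    simp
  have hc : ∀ a b : ℝ, (HH y (1 - I * (a : ℂ))).re = (HH y (1 - I * (b : ℂ))).re :=
    is_const_of_deriv_eq_zero (fun t => (hd t).differentiableAt) (fun t => (hd t).deriv)
  have := hc η 0
  simpa using this

end Pool.Agent.RFS
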