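import Pool.Agent.RFS.Phase
import Pool.Agent.RFS.Core
import Pool.Agent.RFS.Formula
import Pool.Agent.RFS.Shift

/-!
# The sign pattern
-/

namespace Pool.Agent.RFS

open Complex Set Filter Topology Pool.Agent.H62LR
open scoped Real

variable {N : ℕ}

/-- the sign at the points where the corrected phase is a multiple of `π`, abstract form -/
theorem sign_at_aux (w : Fin N → ℂ) {r c F : ℝ} {J : ℂ} (k : ℕ) (hr : 0 < r) (hc : 0 < c) (hw : ∀ j, 0 < (w j).re)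
    (hF : F = c * ((∏ j, (1 + I * ((r : ℂ) * w j)) ^ 2) *
      (1 - I * eta (fun j => (r : ℂ) * w j)) ^ (1 / 2 : ℂ) * J).re)
    (hcore : 0 < (exp (I * ((Real.arctan (eta (fun j => (r : ℂ) * w j)) / 4 : ℝ) : ℂ)) * J).re)
    (hk : Psi w r = k * π) : 0 < (-1 : ℝ) ^ k * F := by
  set η := eta (fun j => (r : ℂ) * w j) with hη
  set a : ℝ := ∏ j, ‖1 + I * ((r : ℂ) * w j)‖ ^ 2 with ha
  set s : ℝ := Real.sqrt (Real.sqrt (1 + η ^ 2)) with hs
  have ha0 : 0 < a := Finset.prod_pos fun j _ => by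
    have := norm_pos_iff.2 (slitPlane_ne_zero (slit_mul (hw j) hr.le))
    positivity
  have hs0 : 0 < s := by positivity
  have hΘ : Th w r = k * π + 3 / 4 * Real.arctan η := by
    have := hk
    unfold Psi at this
    linarith
  have hexp : exp ((k * π : ℝ) * I) = (((-1 : ℝ) ^ k : ℝ) : ℂ) := by
    have h1 : ((k * π : ℝ) : ℂ) * I = k * (π * I) := by
      push_cast
      ring
    rw [h1, exp_nat_mul, exp_pi_mul_I]
    push_cast
    rfl
  have h1 : (∏ j, (1 + I * ((r : ℂ) * w j)) ^ 2) * (1 - I * η) ^ (1 / 2 : ℂ) * J =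
      ((a * s * (-1 : ℝ) ^ k : ℝ) : ℂ) * (exp (I * ((Real.arctan η / 4 : ℝ) : ℂ)) * J) := by
    rw [prod_polar, sqrt_polar, hΘ]
    have h2 : exp (((k * π + 3 / 4 * Real.arctan η : ℝ) : ℂ) * I) * exp ((-(1 / 2) * Real.arctan η : ℝ) * I) =
        (((-1 : ℝ) ^ k : ℝ) : ℂ) * exp (I * ((Real.arctan η / 4 : ℝ) : ℂ)) := by
      rw [← hexp, ← exp_add, ← exp_add]
      congr 1
      push_cast
      ring
    calc (a : ℂ) * exp (((k * π + 3 / 4 * Real.arctan η : ℝ) : ℂ) * I) *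
          ((s : ℂ) * exp ((-(1 / 2) * Real.arctan η : ℝ) * I)) * J
        = (a : ℂ) * s * (exp (((k * π + 3 / 4 * Real.arctan η : ℝ) : ℂ) * I) *
          exp ((-(1 / 2) * Real.arctan η : ℝ) * I)) * J := by ring
      _ = (a : ℂ) * s * ((((-1 : ℝ) ^ k : ℝ) : ℂ) * exp (I * ((Real.arctan η / 4 : ℝ) : ℂ))) * J := by rw [h2]
      _ = _ := by
          push_cast
          ring
  rw [hF, h1, re_ofReal_mul]
  have h3 : (-1 : ℝ) ^ k * (c * (a * s * (-1) ^ k * (exp (I * ((Real.arctan η / 4 : ℝ) : ℂ)) * J).re)) =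
      ((-1 : ℝ) ^ k * (-1) ^ k) * (c * a * s * (exp (I * ((Real.arctan η / 4 : ℝ) : ℂ)) * J).re) := by ring
  rw [h3, ← mul_pow, show ((-1 : ℝ) * -1) = 1 by norm_num, one_pow, one_mul]
  exact mul_pos (mul_pos (mul_pos hc ha0) hs0) hcore

/-- at `Ψ(r) = k π` the sign is `(-1)^k` -/
theorem sign_at {N : ℕ} (hN : 0 < N) {g : ℕ → ℝ} (hg : 0 < g 0) {w : Fin N → ℂ}
    (hw : ∀ z : ℂ, ev N g z = (g 0 : ℂ) * ∏ j, (1 + w j * z)) (hcc : CC w) (hne : ∀ j, w j ≠ 0)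
    (harg : ∀ j, |(w j).arg| ≤ Real.pi / 8) {r : ℝ} (hr : 0 < r) (k : ℕ)
    (hk : Psi w r = k * Real.pi) :
    0 < (-1) ^ k * (ev N (fun k => g k ^ 2) (-(r : ℂ) ^ 2)).re := by
  have hre : ∀ j, 0 < (w j).re := fun j => re_pos_of_arg (hne j) (harg j)
  have hr' : (r : ℂ) ≠ 0 := by exact_mod_cast hr.ne'
  have hccr : CC (fun j => (r : ℂ) * w j) := hcc.smul r
  have hner : ∀ j, (r : ℂ) * w j ≠ 0 := fun j => mul_ne_zero hr' (hne j)
  have hargr : ∀ j, |((r : ℂ) * w j).arg| ≤ Real.pi / 8 := fun j => arg_mul_le hr (harg j)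
  have hpos : 0 < (zeta (fun j => (r : ℂ) * w j)).re := zeta_re_pos hN hccr hner hargr
  have hsq := sum_sq hccr hner hargr
  have hR : 0 < normSq (zeta (fun j => (r : ℂ) * w j)) / (zeta (fun j => (r : ℂ) * w j)).re := by
    apply div_pos _ hpos
    rw [normSq_pos]
    intro h
    rw [h] at hpos
    simp at hpos
  refine sign_at_aux w (c := 2 / Real.pi * g 0 ^ 2)
    (J := II (fun j => (1 - I * (eta (fun j => (r : ℂ) * w j) : ℂ)) * aa ((r : ℂ) * w j))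
      (eta (fun j => (r : ℂ) * w j))) k hr (by positivity) hre ?_ ?_ hk
  · rw [formula hw hcc hr, ← shift hccr (eta (fun j => (r : ℂ) * w j)), HH_eq hner hargr]
  · exact core _ hR (sum_b hpos) (sum_sq_b hpos hsq)

end Pool.Agent.RFS
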