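import Pool.Agent.RFS.Defs
import Pool.Agent.RFS.Factor
import Pool.Agent.RFS.Phase
import Pool.Agent.RFS.Sign
import Pool.Agent.RFS.Count

/-! Squares of the coefficients of a polynomial with zeros in a sector of half angle `π/8`. -/

open Finset Complex Filter Topology

namespace Pool.Agent.RFS

open Pool.Agent.H62LR

/-- If `g 0, …, g N > 0` and all zeros of `∑ g_k z^k` satisfy `|arg (-z)| ≤ π/8`, then
`∑ g_k^2 z^k` has only real zeros. -/
theorem sc {N : ℕ} {g : ℕ → ℝ} (hg : ∀ k ≤ N, 0 < g k)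
    (hz : ∀ z : ℂ, ev N g z = 0 → |(-z).arg| ≤ Real.pi / 8) : PF N (fun k => g k ^ 2) := by
  rcases Nat.eq_zero_or_pos N with h0 | hN
  · subst h0
    refine ⟨fun k hk => pow_pos (hg k hk) 2, fun z _ => ?_⟩
    have := hg 0 le_rfl
    simp only [ev, zero_add, range_one, sum_singleton, pow_zero, mul_one]
    exact_mod_cast (pow_pos this 2).ne'
  · obtain ⟨w, hw, hne, harg, hcc⟩ := exists_w hg hz
    exact count hN (fun k hk => pow_pos (hg k hk) 2) (Psi_cont hN hcc hne harg) Psi_small
      (Psi_large hcc hne harg)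
      (fun r hr k hk => sign_at hN (hg 0 (Nat.zero_le _)) hw hcc hne harg hr k hk)

end Pool.Agent.RFS
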